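import Pool.Agent.P8H49.GM.Stm
import Pool.Agent.R521.GG.H2

set_option autoImplicit false

/-!
# Project GM: closed sets of vertices
-/

namespace Pool.Agent.P8H49.GM

open Finset
open Pool.Agent.R521.GG (R dg cd LL S_mom S_codeg)

/-- the class of the vertices which are divisible by both or by none of `2` and `3` -/
def P1 (a : ℕ) : Prop := 2 ∣ a ↔ 3 ∣ a

lemma MA_symm {K n a b : ℕ} (h : MA K n a b) : MA K n b a := by
  obtain ⟨h1, h2⟩ := h
  refine ⟨h1.symm, ?_⟩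
  rw [add_comm b a, Nat.dist_comm b a]
  exact h2

lemma MA_of_R {K n a b : ℕ} (h : R a b) : MA K n a b := by
  refine ⟨?_, Or.inl ⟨h.1, Or.inl h.2⟩⟩
  rintro rfl
  have := h.2.1
  rw [Nat.dist_self] at this
  exact Nat.not_prime_zero this

/-- divisibility by `3` and parity of the two numbers of an edge -/
lemma part_of {K n m : ℕ} (hn : 3 ^ K ≤ n) (h : OPr m ∨ Rog K n m) : Odd m ∧ (m ≠ 3 → ¬ 3 ∣ m) := by
  rcases h with h | h
  · refine ⟨h.2, fun h3 h4 => h3 ?_⟩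
    exact ((Nat.prime_dvd_prime_iff_eq Nat.prime_three h.1).1 h4).symm
  · have h2 : (2 : ℕ) ^ K ≤ 3 ^ K := Nat.pow_le_pow_left (by norm_num) K
    refine ⟨?_, fun _ h4 => ?_⟩
    · rw [← Nat.not_even_iff_odd]
      intro h5
      have := h.2 2 Nat.prime_two h5.two_dvd
      omega
    · have := h.2 3 Nat.prime_three h4
      omega

lemma edge_parts {K n a b : ℕ} (hn : 3 ^ K ≤ n) (h : MA K n a b) :
    Odd (a + b) ∧ (a + b ≠ 3 → ¬ 3 ∣ a + b) ∧ (Nat.dist a b ≠ 3 → ¬ 3 ∣ Nat.dist a b) := by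
  obtain ⟨h1, h2 | h2⟩ := h
  · have e1 := part_of hn (K := K) (Or.inl h2.1)
    have e2 := part_of hn h2.2
    exact ⟨e1.1, e1.2, e2.2⟩
  · have e1 := part_of hn (K := K) (Or.inl h2.1)
    have e2 := part_of hn (Or.inr h2.2)
    exact ⟨e2.1, e2.2, e1.2⟩

lemma cls {a b : ℕ} (h1 : Odd (a + b)) (h2 : ¬ 3 ∣ a + b) (h3 : ¬ 3 ∣ Nat.dist a b) : P1 a ↔ P1 b := by
  rw [Nat.odd_iff] at h1
  unfold P1
  have e : (3 ∣ a ∧ ¬ 3 ∣ b) ∨ (¬ 3 ∣ a ∧ 3 ∣ b) := by
    have ha : a % 3 = 0 ∨ a % 3 = 1 ∨ a % 3 = 2 := by omega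
    have hb : b % 3 = 0 ∨ b % 3 = 1 ∨ b % 3 = 2 := by omega
    have hd : ¬ (3 : ℤ) ∣ (a : ℤ) - b := by
      intro h
      apply h3
      simp only [Nat.dist]
      omega
    rcases ha with ha | ha | ha <;> rcases hb with hb | hb | hb <;> omega
  rcases e with ⟨e1, e2⟩ | ⟨e1, e2⟩
  · simp only [e1, e2, iff_true, iff_false]
    omega
  · simp only [e1, e2, iff_true, iff_false]
    omega

/-- the three exceptional neighbours -/
def ex3 (a : ℕ) : Finset ℕ := {3 - a, a + 3, a - 3}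

lemma ex3_card (a : ℕ) : (ex3 a).card ≤ 3 := card_le_three

lemma cls_ma {K n a b : ℕ} (hn : 3 ^ K ≤ n) (h : MA K n a b) (hb : b ∉ ex3 a) : (P1 a ↔ P1 b) ∧ Odd (a + b) := by
  obtain ⟨h1, h2, h3⟩ := edge_parts hn h
  unfold ex3 at hb
  simp only [mem_insert, mem_singleton, not_or] at hb
  refine ⟨cls h1 (h2 (by omega)) (h3 ?_), h1⟩
  simp only [Nat.dist]
  omega

lemma card_filter_le_add {α : Type} [DecidableEq α] (X Z E : Finset α) (p : α → Prop) [DecidablePred p]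
    (h : ∀ b ∈ X, p b → b ∉ E → b ∈ Z) : (X.filter p).card ≤ (Z.filter p).card + E.card := by
  have hs : X.filter p ⊆ Z.filter p ∪ E := by
    intro b hb
    rw [mem_filter] at hb
    rw [mem_union, mem_filter]
    by_cases hE : b ∈ E
    · exact Or.inr hE
    · exact Or.inl ⟨h b hb.1 hb.2 hE, hb.2⟩
  exact (card_le_card hs).trans (card_union_le _ _)

/-- the neighbours in a closed set, up to three exceptions -/
lemma dg_class {K n a : ℕ} (hn : 3 ^ K ≤ n) (X Z : Finset ℕ)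
    (hZ : ∀ b ∈ X, MA K n a b → (P1 a ↔ P1 b) → Odd (a + b) → b ∈ Z) : (dg X a : ℝ) - 3 ≤ dg Z a := by
  have h1 : dg X a ≤ dg Z a + (ex3 a).card := by
    unfold dg
    apply card_filter_le_add
    intro b hb hR hE
    have h2 := MA_of_R (K := K) (n := n) hR
    obtain ⟨h3, h4⟩ := cls_ma hn h2 hE
    exact hZ b hb h2 h3 h4
  have h2 := ex3_card a
  have h3 : dg X a ≤ dg Z a + 3 := by omega
  have h4 : (dg X a : ℝ) ≤ dg Z a + 3 := by exact_mod_cast h3
  linarith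

/-- double counting -/
lemma dg_swap (Y E : Finset ℕ) : ∑ a ∈ Y, (dg E a : ℝ) = ∑ b ∈ E, (dg Y b : ℝ) := by
  have h1 : ∀ (Z : Finset ℕ) (b : ℕ), (dg Z b : ℝ) = ∑ a ∈ Z, if R b a then (1 : ℝ) else 0 := by
    intro Z b
    unfold dg
    rw [← sum_filter, sum_const, nsmul_eq_mul, mul_one]
  simp only [h1]
  rw [sum_comm]
  apply sum_congr rfl
  intro b _
  apply sum_congr rfl
  intro a _
  simp only [Pool.Agent.R521.GG.R_comm1 a b]

end Pool.Agent.P8H49.GM
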