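import Pool.Agent.P8H49.GM.Asm1

set_option autoImplicit false

/-!
# Project GM: closed sets of vertices are everything
-/

namespace Pool.Agent.P8H49.GM

open Finset
open Pool.Agent.R521.GG (R dg cd LL S_mom S_codeg dg_mono1)

open Classical in
/-- the data at `n` -/
structure Dat (K n : ℕ) (c η κ C5 : ℝ) (X : Finset ℕ) : Prop where
  hn3 : 3 ^ K ≤ n
  hn5 : 5 ≤ n
  hX : X ⊆ Icc 1 n
  c0 : 0 < c
  η0 : 0 < η
  κ0 : 0 < κ
  C50 : 0 < C5
  κη : κ ≤ η / 8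
  κC : C5 * √κ ≤ η * c / 8
  deg : ∀ a ∈ X, c * LL n ≤ dg X a
  few : ∀ Y ⊆ Icc 1 n, Y.Nonempty → (Y.card : ℝ) ≤ η * n → ∑ a ∈ Y, (dg Y a : ℝ) < c / 2 * LL n * Y.card
  lk : (((Icc 1 n ×ˢ Icc 1 n).filter (fun q : ℕ × ℕ => q.1 < q.2 ∧ SC q.1 q.2 ∧
    ¬ ∃ b ∈ Icc 1 n, MA K n q.1 b ∧ MA K n q.2 b)).card : ℝ) ≤ κ ^ 2 * (n : ℝ) ^ 2
  l5 : ∀ E ⊆ Icc 1 n, ∑ b ∈ E, (dg (Icc 1 n) b : ℝ) ≤ C5 * √((E.card : ℝ) * n) * LL n
  adj : ∀ a ∈ Icc 1 n, ∃ b ∈ X, MA K n a b ∧ (P1 a ↔ P1 b)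
  big : 3 ≤ c / 2 * LL n

/-- closed in its class -/
def Cl (K n : ℕ) (X Z : Finset ℕ) : Prop := ∀ a ∈ Z, ∀ b ∈ X, MA K n a b → (P1 a ↔ P1 b) → b ∈ Z

variable {K n : ℕ} {c η κ C5 : ℝ} {X : Finset ℕ}

lemma Dat.large (D : Dat K n c η κ C5 X) {Z : Finset ℕ} (hZX : Z ⊆ X) (hne : Z.Nonempty) (hcl : Cl K n X Z) :
    η * n < Z.card := by
  by_contra hcon
  push Not at hcon
  have h1 := D.few Z (hZX.trans D.hX) hne hcon
  have h2 : ∀ a ∈ Z, c / 2 * LL n ≤ (dg Z a : ℝ) := by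
    intro a ha
    have h3 := dg_class D.hn3 (a := a) X Z (fun b hb hm hp _ => hcl a ha b hb hm hp)
    have h4 := D.deg a (hZX ha)
    have h5 := D.big
    linarith
  have h3 := sum_le_sum h2
  rw [sum_const, nsmul_eq_mul] at h3
  linarith

lemma Dat.parity (D : Dat K n c η κ C5 X) {Z : Finset ℕ} (hZX : Z ⊆ X) (hne : Z.Nonempty) (hcl : Cl K n X Z) (r : ℕ)
    (hr : r < 2) : κ * n < ((Z.filter (fun a => a % 2 = r)).card : ℝ) := by
  by_contra hcon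
  push Not at hcon
  have hn : (5 : ℝ) ≤ n := by exact_mod_cast D.hn5
  have hlog : 0 < Real.log n := Real.log_pos (by linarith)
  have hLL : 0 < LL n := by unfold LL; positivity
  obtain ⟨c0, η0, κ0, C50⟩ := And.intro D.c0 (And.intro D.η0 (And.intro D.κ0 D.C50))
  obtain ⟨E, hE⟩ : ∃ E, E = Z.filter (fun a => a % 2 = r) := ⟨_, rfl⟩
  obtain ⟨Y, hY⟩ : ∃ Y, Y = Z.filter (fun a => ¬ a % 2 = r) := ⟨_, rfl⟩
  have hEY : E.card + Y.card = Z.card := by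
    rw [hE, hY]
    exact card_filter_add_card_filter_not _
  have hEY' : (E.card : ℝ) + Y.card = Z.card := by exact_mod_cast hEY
  rw [← hE] at hcon
  have hbig := D.large hZX hne hcl
  have hκ := D.κη
  have hYc : η / 2 * n ≤ (Y.card : ℝ) := by nlinarith
  have hEn : E ⊆ Icc 1 n := by
    rw [hE]
    exact (filter_subset _ _).trans (hZX.trans D.hX)
  have hYn : Y ⊆ Icc 1 n := by
    rw [hY]
    exact (filter_subset _ _).trans (hZX.trans D.hX)
  have h2 : ∀ a ∈ Y, c / 2 * LL n ≤ (dg E a : ℝ) := by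
    intro a ha
    rw [hY, mem_filter] at ha
    have h3 := dg_class D.hn3 (a := a) X E (fun b hb hm hp ho => by
      rw [hE, mem_filter]
      refine ⟨hcl a ha.1 b hb hm hp, ?_⟩
      rw [Nat.odd_iff] at ho
      omega)
    have h4 := D.deg a (hZX ha.1)
    have h5 := D.big
    linarith
  have h3 := sum_le_sum h2
  rw [sum_const, nsmul_eq_mul, dg_swap Y E] at h3
  have h4 : ∑ b ∈ E, (dg Y b : ℝ) ≤ ∑ b ∈ E, (dg (Icc 1 n) b : ℝ) := by
    apply sum_le_sum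
    intro b _
    exact_mod_cast dg_mono1 hYn b
  have h5 := D.l5 E hEn
  have h6 : √((E.card : ℝ) * n) ≤ √κ * n := by
    rw [show √κ * (n : ℝ) = √(κ * n * n) by
      rw [mul_assoc, Real.sqrt_mul κ0.le, Real.sqrt_mul_self (by linarith)]]
    apply Real.sqrt_le_sqrt
    exact mul_le_mul_of_nonneg_right hcon (by linarith)
  have h7 : C5 * √((E.card : ℝ) * n) * LL n ≤ η * c / 8 * n * LL n := by
    apply mul_le_mul_of_nonneg_right _ hLL.le
    calc C5 * √((E.card : ℝ) * n) ≤ C5 * (√κ * n) := mul_le_mul_of_nonneg_left h6 C50.le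
      _ = (C5 * √κ) * n := by ring
      _ ≤ η * c / 8 * n := mul_le_mul_of_nonneg_right D.κC (by linarith)
  have h8 : η / 2 * n * (c / 2 * LL n) ≤ (Y.card : ℝ) * (c / 2 * LL n) := mul_le_mul_of_nonneg_right hYc (by positivity)
  have h9 : 0 < η * c * n * LL n := by positivity
  nlinarith

lemma Dat.mono (D : Dat K n c η κ C5 X) {S T : Finset ℕ} (hSX : S ⊆ X) (hTX : T ⊆ X) (hS : S.Nonempty) (hT : T.Nonempty)
    (cS : Cl K n X S) (cT : Cl K n X T) (hcl : ∀ a ∈ S, ∀ b ∈ T, P1 a ↔ P1 b)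
    (hno : ∀ a ∈ S, ∀ b ∈ T, ¬ ∃ m ∈ Icc 1 n, MA K n a m ∧ MA K n b m) : False := by
  have hn : (5 : ℝ) ≤ n := by exact_mod_cast D.hn5
  have h1 := D.parity hSX hS cS 0 (by norm_num)
  have h2 := D.parity hTX hT cT 0 (by norm_num)
  obtain ⟨U, hU⟩ : ∃ U, U = S.filter (fun a => a % 2 = 0) := ⟨_, rfl⟩
  obtain ⟨V, hV⟩ : ∃ V, V = T.filter (fun a => a % 2 = 0) := ⟨_, rfl⟩
  rw [← hU] at h1
  rw [← hV] at h2
  have hdis : ∀ a ∈ S, a ∉ T := by
    intro a ha hb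
    obtain ⟨m, hm, hm1, -⟩ := D.adj a (D.hX (hSX ha))
    exact hno a ha a hb ⟨m, D.hX hm, hm1, hm1⟩
  have h4 : ((U ×ˢ V).card : ℝ) ≤ κ ^ 2 * (n : ℝ) ^ 2 := by
    refine le_trans (Nat.cast_le.2 (card_le_card_of_injOn (fun q => (min q.1 q.2, max q.1 q.2)) ?_ ?_)) D.lk
    · intro q hq
      have hq' := mem_product.1 (mem_coe.1 hq)
      rw [hU, hV] at hq'
      simp only [mem_filter] at hq'
      obtain ⟨⟨a1, a2⟩, ⟨b1, b2⟩⟩ := hq'
      have ha := mem_Icc.1 (D.hX (hSX a1))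
      have hb := mem_Icc.1 (D.hX (hTX b1))
      have hne : q.1 ≠ q.2 := by
        intro h
        exact hdis _ a1 (h ▸ b1)
      have hc := hcl _ a1 _ b1
      have hSC : SC q.1 q.2 := by
        unfold P1 at hc
        unfold SC
        omega
      have hSC' : SC q.2 q.1 := ⟨hSC.1.symm, hSC.2.symm⟩
      have hno1 := hno _ a1 _ b1
      rw [mem_coe]
      simp only [mem_filter, mem_product, mem_Icc]
      rcases Nat.lt_or_ge q.1 q.2 with h | h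
      · rw [min_eq_left h.le, max_eq_right h.le]
        refine ⟨⟨ha, hb⟩, h, hSC, ?_⟩
        rintro ⟨m, hm, e1, e2⟩
        exact hno1 ⟨m, mem_Icc.2 hm, e1, e2⟩
      · rw [min_eq_right h, max_eq_left h]
        refine ⟨⟨hb, ha⟩, by omega, hSC', ?_⟩
        rintro ⟨m, hm, e1, e2⟩
        exact hno1 ⟨m, mem_Icc.2 hm, e2, e1⟩
    · intro q hq q' hq' he
      have m1 := mem_product.1 (mem_coe.1 hq)
      have m2 := mem_product.1 (mem_coe.1 hq')
      rw [hU, hV] at m1 m2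
      simp only [mem_filter] at m1 m2
      simp only [Prod.mk.injEq] at he
      have n1 : q.1 ≠ q'.2 := fun h => hdis _ m1.1.1 (h ▸ m2.2.1)
      have n2 : q'.1 ≠ q.2 := fun h => hdis _ m2.1.1 (h ▸ m1.2.1)
      apply Prod.ext <;> omega
  rw [card_product] at h4
  push_cast at h4
  have h5 : (κ * n) * (κ * n) < (U.card : ℝ) * V.card :=
    mul_lt_mul'' h1 h2 (by have := D.κ0; positivity) (by have := D.κ0; positivity)
  nlinarith

/-- a set closed under adjacency contains everything -/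
theorem Dat.conn (D : Dat K n c η κ C5 X) (S : Finset ℕ) (hS : S ⊆ Icc 1 n) (hne : S.Nonempty)
    (hcl : ∀ a ∈ S, ∀ b ∈ Icc 1 n, MA K n a b → b ∈ S) : S = Icc 1 n := by
  classical
  -- each class is in `S` or outside `S`
  have key : ∀ a ∈ Icc 1 n, ∀ b ∈ Icc 1 n, (P1 a ↔ P1 b) → a ∈ S → b ∈ S := by
    intro a ha b hb hab haS
    by_contra hbS
    obtain ⟨x, hx, hx1, hx2⟩ := D.adj a ha
    obtain ⟨y, hy, hy1, hy2⟩ := D.adj b hb
    have hxS : x ∈ S := hcl a haS x (D.hX hx) hx1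
    have hyS : y ∉ S := fun h => hbS (hcl y h b hb (MA_symm hy1))
    refine D.mono (S := X.filter (fun z => z ∈ S ∧ (P1 a ↔ P1 z))) (T := X.filter (fun z => z ∉ S ∧ (P1 a ↔ P1 z)))
      (filter_subset _ _) (filter_subset _ _) ⟨x, mem_filter.2 ⟨hx, hxS, hx2⟩⟩
      ⟨y, mem_filter.2 ⟨hy, hyS, hab.trans hy2⟩⟩ ?_ ?_ ?_ ?_
    · intro u hu v hv huv hp
      rw [mem_filter] at hu ⊢
      exact ⟨hv, hcl u hu.2.1 v (D.hX hv) huv, hu.2.2.trans hp⟩
    · intro u hu v hv huv hp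
      rw [mem_filter] at hu ⊢
      exact ⟨hv, fun h => hu.2.1 (hcl v h u (D.hX hu.1) (MA_symm huv)), hu.2.2.trans hp⟩
    · intro u hu v hv
      rw [mem_filter] at hu hv
      exact hu.2.2.symm.trans hv.2.2
    · rintro u hu v hv ⟨m, hm, h1, h2⟩
      rw [mem_filter] at hu hv
      exact hv.2.1 (hcl m (hcl u hu.2.1 m hm h1) v (D.hX hv.1) (MA_symm h2))
  have h5 := D.hn5
  have hadj : MA K n 1 4 := by
    refine ⟨by norm_num, Or.inl ⟨⟨by norm_num, by decide⟩, Or.inl ⟨?_, ?_⟩⟩⟩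
    · show (Nat.dist 1 4).Prime
      simp only [Nat.dist]
      norm_num
    · show Odd (Nat.dist 1 4)
      simp only [Nat.dist]
      decide
  have m1 : (1 : ℕ) ∈ Icc 1 n := mem_Icc.2 ⟨le_rfl, by omega⟩
  have m4 : (4 : ℕ) ∈ Icc 1 n := mem_Icc.2 ⟨by norm_num, by omega⟩
  have p1 : P1 1 := by unfold P1; norm_num
  have p4 : ¬ P1 4 := by unfold P1; norm_num
  have h14 : 1 ∈ S ↔ 4 ∈ S := ⟨fun h => hcl 1 h 4 m4 hadj, fun h => hcl 4 h 1 m1 (MA_symm hadj)⟩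
  -- both representatives are in `S`
  have both : 1 ∈ S ∧ 4 ∈ S := by
    obtain ⟨a, ha⟩ := hne
    by_cases hp : P1 a
    · have : 1 ∈ S := key a (hS ha) 1 m1 (by simp only [hp, p1]) ha
      exact ⟨this, h14.1 this⟩
    · have : 4 ∈ S := key a (hS ha) 4 m4 (by simp only [hp, p4]) ha
      exact ⟨h14.2 this, this⟩
  apply Subset.antisymm hS
  intro b hb
  by_cases hp : P1 b
  · exact key 1 m1 b hb (by simp only [hp, p1]) both.1
  · exact key 4 m4 b hb (by simp only [hp, p4]) both.2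

end Pool.Agent.P8H49.GM
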