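import Pool.Agent.P8H49.GM.Asm2

set_option autoImplicit false

/-!
# Project GM: the mixed graph is connected with bounded diameter
-/

namespace Pool.Agent.P8H49.GM

open Finset
open Pool.Agent.R521.GG (R dg cd LL S_mom S_codeg S_wsum S_gold S_twin S_peel S_graph few_edges LL_large)

/-- the graph on `1, …, n` -/
def mg (K n : ℕ) : SimpleGraph {a : ℕ // a ∈ Icc 1 n} where
  Adj a b := MA K n a.1 b.1
  symm := ⟨fun _ _ h => MA_symm h⟩
  loopless := ⟨fun _ h => h.1 rfl⟩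

open Classical in
lemma touch {K n : ℕ} {X : Finset ℕ} {δ : ℝ} (hn3 : 3 ^ K ≤ n)
    (h1 : ∀ a ∈ Icc 1 n, δ * LL n ≤ (((Icc 1 n).filter (fun b => MA K n a b)).card : ℝ))
    (h2 : ((Icc 1 n \ X).card : ℝ) + 3 < δ * LL n) (a : ℕ) (ha : a ∈ Icc 1 n) :
    ∃ b ∈ X, MA K n a b ∧ (P1 a ↔ P1 b) := by
  by_contra hcon
  push Not at hcon
  have hsub : (Icc 1 n).filter (fun b => MA K n a b) ⊆ (Icc 1 n \ X) ∪ ex3 a := by
    intro b hb
    rw [mem_filter] at hb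
    rw [mem_union, mem_sdiff]
    by_cases hX : b ∈ X
    · right
      by_contra hE
      have h3 := (cls_ma hn3 hb.2 hE).1
      rcases hcon b hX hb.2 with h | h
      · exact h.2 (h3.1 h.1)
      · exact h.1 (h3.2 h.2)
    · exact Or.inl ⟨hb.1, hX⟩
  have h3 := (card_le_card hsub).trans (card_union_le _ _)
  have h4 := ex3_card a
  have h5 : ((Icc 1 n).filter (fun b => MA K n a b)).card ≤ (Icc 1 n \ X).card + 3 := by omega
  have h6 : (((Icc 1 n).filter (fun b => MA K n a b)).card : ℝ) ≤ (Icc 1 n \ X).card + 3 := by exact_mod_cast h5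
  linarith [h1 a ha]

lemma walk8 {K n K' : ℕ} {X : Finset ℕ} (hX : X ⊆ Icc 1 n) (hadj : ∀ a ∈ Icc 1 n, ∃ b ∈ X, MA K n a b ∧ (P1 a ↔ P1 b))
    (hf : ∀ f : Fin K' → ℕ, (∀ i, f i ∈ X) → Function.Injective f → ∃ i j, i ≠ j ∧
        ∃ b₁ ∈ X, ∃ b₂ ∈ X, ∃ b₃ ∈ X, ∃ b₄ ∈ X, ∃ b₅ ∈ X,
          R (f i) b₁ ∧ R b₁ b₂ ∧ R b₂ b₃ ∧ R b₃ b₄ ∧ R b₄ b₅ ∧ R b₅ (f j))
    (f : Fin K' → {a : ℕ // a ∈ Icc 1 n}) :
    ∃ i j, i ≠ j ∧ ∃ w : (mg K n).Walk (f i) (f j), w.length ≤ 8 := by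
  have h1 : ∀ i, ∃ b ∈ X, MA K n (f i).1 b ∧ (P1 (f i).1 ↔ P1 b) := fun i => hadj _ (f i).2
  choose x hx1 hx2 _ using h1
  by_cases hinj : Function.Injective x
  · obtain ⟨i, j, hij, b₁, m₁, b₂, m₂, b₃, m₃, b₄, m₄, b₅, m₅, r₁, r₂, r₃, r₄, r₅, r₆⟩ := hf x hx1 hinj
    refine ⟨i, j, hij, ?_⟩
    have e0 : (mg K n).Adj (f i) ⟨x i, hX (hx1 i)⟩ := hx2 i
    have e1 : (mg K n).Adj ⟨x i, hX (hx1 i)⟩ ⟨b₁, hX m₁⟩ := MA_of_R r₁
    have e2 : (mg K n).Adj ⟨b₁, hX m₁⟩ ⟨b₂, hX m₂⟩ := MA_of_R r₂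
    have e3 : (mg K n).Adj ⟨b₂, hX m₂⟩ ⟨b₃, hX m₃⟩ := MA_of_R r₃
    have e4 : (mg K n).Adj ⟨b₃, hX m₃⟩ ⟨b₄, hX m₄⟩ := MA_of_R r₄
    have e5 : (mg K n).Adj ⟨b₄, hX m₄⟩ ⟨b₅, hX m₅⟩ := MA_of_R r₅
    have e6 : (mg K n).Adj ⟨b₅, hX m₅⟩ ⟨x j, hX (hx1 j)⟩ := MA_of_R r₆
    have e7 : (mg K n).Adj ⟨x j, hX (hx1 j)⟩ (f j) := MA_symm (hx2 j)
    exact ⟨.cons e0 (.cons e1 (.cons e2 (.cons e3 (.cons e4 (.cons e5 (.cons e6 (.cons e7 .nil))))))), by
      simp [SimpleGraph.Walk.length_cons]⟩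
  · unfold Function.Injective at hinj
    push Not at hinj
    obtain ⟨i, j, he, hij⟩ := hinj
    refine ⟨i, j, hij, ?_⟩
    have e0 : (mg K n).Adj (f i) ⟨x i, hX (hx1 i)⟩ := hx2 i
    have e7 : (mg K n).Adj ⟨x i, hX (hx1 i)⟩ (f j) := by
      show MA K n (x i) (f j).1
      rw [he]
      exact MA_symm (hx2 j)
    exact ⟨.cons e0 (.cons e7 .nil), by simp [SimpleGraph.Walk.length_cons]⟩

theorem t_asm (hm : S_mom) (hc : S_codeg) (hw : S_wsum) (hg : S_gold) (ht : S_twin) (hp : S_peel) (hgr : S_graph)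
    (hL : S_LINK) (hA : S_ALLV) (h5 : S_L5) : S_ASM := by
  classical
  obtain ⟨c, K', hc0, hK', hmain⟩ := Pool.Agent.R521.GG.main hm hc hw hg ht hp
  obtain ⟨η, hη, nf, hfew⟩ := few_edges hm hc (c / 2) (by positivity)
  obtain ⟨C5, hC5, n5, hl5⟩ := h5
  obtain ⟨Ka, δ, hδ, na, hall⟩ := hA
  obtain ⟨κ, hκ⟩ : ∃ κ : ℝ, κ = min (η / 8) ((η * c / (8 * C5)) ^ 2) := ⟨_, rfl⟩
  have hκ0 : 0 < κ := by
    rw [hκ]
    exact lt_min (by positivity) (by positivity)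
  obtain ⟨Kl, hlink⟩ := hL (κ ^ 2) (by positivity)
  obtain ⟨K, hK⟩ : ∃ K, K = max Ka Kl := ⟨_, rfl⟩
  obtain ⟨nl, hln⟩ := hlink K (by rw [hK]; exact le_max_right _ _)
  obtain ⟨nm, hmn⟩ := hmain 3
  obtain ⟨nb, hnb, hLL⟩ := LL_large (max (6 / c) (8 / δ))
  have hlogt : Filter.Tendsto (fun n : ℕ => Real.log n) Filter.atTop Filter.atTop :=
    Real.tendsto_log_atTop.comp tendsto_natCast_atTop_atTop
  obtain ⟨ng, hng⟩ := Filter.eventually_atTop.1 (hlogt.eventually_ge_atTop (max 1 (2 / δ)))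
  obtain ⟨M3, hM3⟩ : ∃ M3, M3 = 3 ^ K := ⟨_, rfl⟩
  refine ⟨K, 9 * K', nf + n5 + na + nl + nm + nb + ng + M3 + 5, fun n hn => ?_⟩
  have hn5 : 5 ≤ n := by omega
  have hnr : (5 : ℝ) ≤ n := by exact_mod_cast hn5
  obtain ⟨X, hX, hXc, hXd, hXf⟩ := hmn n (by omega)
  have b1 := (hLL n (by omega)).1
  have b2 : 6 / c ≤ LL n := (le_max_left _ _).trans b1
  have b3 : 8 / δ ≤ LL n := (le_max_right _ _).trans b1
  have g1 := hng n (by omega)
  have g2 : 1 ≤ Real.log n := (le_max_left _ _).trans g1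
  have g3 : 2 / δ ≤ Real.log n := (le_max_right _ _).trans g1
  have hlog : 0 < Real.log n := by linarith
  have hLL0 : 0 < LL n := by unfold LL; positivity
  have hn3 : 3 ^ K ≤ n := by
    rw [← hM3]
    omega
  have hex : ((Icc 1 n \ X).card : ℝ) + 3 < δ * LL n := by
    have e1 : (n : ℝ) / Real.log n ^ 3 = LL n / Real.log n := by
      unfold LL
      rw [div_div, ← pow_succ]
    have e2 : LL n / Real.log n ≤ δ / 2 * LL n := by
      rw [div_le_iff₀ hlog]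
      rw [div_le_iff₀ hδ] at g3
      nlinarith
    have e3 : 4 ≤ δ / 2 * LL n := by
      rw [div_le_iff₀ hδ] at b3
      linarith
    rw [e1] at hXc
    linarith
  have hadj := touch hn3 (δ := δ) (X := X) (fun a ha => hall n (by omega) K (by rw [hK]; exact le_max_left _ _) a ha) hex
  have D : Dat K n c η κ C5 X := {
    hn3 := hn3
    hn5 := hn5
    hX := hX
    c0 := hc0
    η0 := hη
    κ0 := hκ0
    C50 := hC5
    κη := by rw [hκ]; exact min_le_left _ _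
    κC := by
      have h1 : √κ ≤ η * c / (8 * C5) := by
        rw [← Real.sqrt_sq (by positivity : (0 : ℝ) ≤ η * c / (8 * C5))]
        apply Real.sqrt_le_sqrt
        rw [hκ]
        exact min_le_right _ _
      calc C5 * √κ ≤ C5 * (η * c / (8 * C5)) := mul_le_mul_of_nonneg_left h1 hC5.le
        _ = η * c / 8 := by field_simp
    deg := by
      intro a ha
      exact hXd a ha
    few := fun Y hY hne hcard => hfew n (by omega) Y hY hne hcard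
    lk := hln n (by clear hn3; omega)
    l5 := fun E hE => hl5 n (by clear hn3; omega) E hE
    adj := hadj
    big := by
      rw [div_le_iff₀ hc0] at b2
      linarith }
  haveI : Finite {a : ℕ // a ∈ Icc 1 n} := inferInstance
  obtain ⟨-, hdist⟩ := hgr {a : ℕ // a ∈ Icc 1 n} (mg K n) K' 8 hK' (fun f _ => walk8 hX hadj hXf f)
  intro u hu v hv
  -- reachability
  have hreach : (mg K n).Reachable ⟨u, hu⟩ ⟨v, hv⟩ := by
    have h1 := D.conn ((Icc 1 n).filter (fun a => ∃ h : a ∈ Icc 1 n, (mg K n).Reachable ⟨u, hu⟩ ⟨a, h⟩)) (filter_subset _ _)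
      ⟨u, mem_filter.2 ⟨hu, hu, SimpleGraph.Reachable.refl _⟩⟩ (by
        intro a ha b hb hab
        rw [mem_filter] at ha ⊢
        obtain ⟨_, h, hr⟩ := ha
        have e : (mg K n).Adj ⟨a, h⟩ ⟨b, hb⟩ := hab
        exact ⟨hb, hb, hr.trans e.reachable⟩)
    have h2 : v ∈ (Icc 1 n).filter (fun a => ∃ h : a ∈ Icc 1 n, (mg K n).Reachable ⟨u, hu⟩ ⟨a, h⟩) := by
      rw [h1]
      exact hv
    exact (mem_filter.1 h2).2.2
  have h3 := hdist _ _ hreach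
  obtain ⟨p, hp⟩ := hreach.exists_walk_length_eq_dist
  refine ⟨p.length, fun i => (p.getVert i).1, by omega, ?_, ?_, fun i _ => (p.getVert i).2, fun i hi => ?_⟩
  · show (p.getVert 0).1 = u
    rw [p.getVert_zero]
  · show (p.getVert p.length).1 = v
    rw [p.getVert_length]
  · exact p.adj_getVert_succ hi

end Pool.Agent.P8H49.GM
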