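import Pool.Agent.P8H49.GM.Gro

set_option autoImplicit false

/-!
# Project GM: an explicit bound for the diameter
-/

namespace Pool.Agent.P8H49.GM

open Finset
open Pool.Agent.R521.GG (R dg cd gg wt LL N2)

/-- there is a walk of length `k` from `u` to `v` -/
def Wk (M : ℕ → ℕ → Prop) (V : Finset ℕ) : ℕ → ℕ → ℕ → Prop
  | 0, u, v => u = v
  | (k + 1), u, v => ∃ w ∈ V, M u w ∧ Wk M V k w v

variable {M : ℕ → ℕ → Prop} {V : Finset ℕ} {n : ℕ}

lemma Wk.one {u v : ℕ} (hv : v ∈ V) (h : M u v) : Wk M V 1 u v := ⟨v, hv, h, rfl⟩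

lemma Wk.trans {i j u v w : ℕ} (h1 : Wk M V i u v) (h2 : Wk M V j v w) : Wk M V (i + j) u w := by
  induction i generalizing u with
  | zero =>
    have : u = v := h1
    rw [this, zero_add]
    exact h2
  | succ i ih =>
    obtain ⟨x, hx, hux, hxv⟩ := h1
    rw [Nat.succ_add]
    exact ⟨x, hx, hux, ih hxv⟩

lemma Wk.symm (hs : ∀ a b, M a b → M b a) {i u v : ℕ} (hu : u ∈ V) (h : Wk M V i u v) : Wk M V i v u := by
  induction i generalizing u with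
  | zero =>
    have e : u = v := h
    exact e.symm
  | succ i ih =>
    obtain ⟨x, hx, hux, hxv⟩ := h
    exact (ih hx hxv).trans (Wk.one hu (hs _ _ hux))

/-- there is a walk of length at most `D` from `u` to `v` -/
def Rc (M : ℕ → ℕ → Prop) (V : Finset ℕ) (D u v : ℕ) : Prop := ∃ k ≤ D, Wk M V k u v

lemma Rc.trans {i j u v w : ℕ} (h1 : Rc M V i u v) (h2 : Rc M V j v w) : Rc M V (i + j) u w := by
  obtain ⟨k, hk, h1⟩ := h1
  obtain ⟨l, hl, h2⟩ := h2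
  exact ⟨k + l, by omega, h1.trans h2⟩

lemma Rc.mono {i j u v : ℕ} (h : Rc M V i u v) (hij : i ≤ j) : Rc M V j u v := by
  obtain ⟨k, hk, h⟩ := h
  exact ⟨k, by omega, h⟩

lemma Rc.symm (hs : ∀ a b, M a b → M b a) {i u v : ℕ} (hu : u ∈ V) (h : Rc M V i u v) : Rc M V i v u := by
  obtain ⟨k, hk, h⟩ := h
  exact ⟨k, hk, Wk.symm hs hu h⟩

lemma Rc.one {u v : ℕ} (hv : v ∈ V) (h : M u v) : Rc M V 1 u v := ⟨1, le_rfl, Wk.one hv h⟩

open Classical in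
/-- the data at `n` for the relation `M` -/
structure Das (M : ℕ → ℕ → Prop) (V : Finset ℕ) (n : ℕ) (c ε : ℝ) (X : Finset ℕ) : Prop where
  hn : 1 ≤ n
  hX : X ⊆ Icc 1 n
  hV : Icc 1 n ⊆ V
  c0 : 0 < c
  εc : ε < c ^ 2
  sy : ∀ a b, M a b → M b a
  RM : ∀ a b, R a b → M a b
  gr : ∀ x ∈ X, ∃ b ∈ XC X x, R x b ∧ c * n ≤ ((N2 (XC X x) b).card : ℝ)
  lk : (((Icc 1 n ×ˢ Icc 1 n).filter (fun q : ℕ × ℕ => q.1 < q.2 ∧ SC q.1 q.2 ∧
    ¬ ∃ b ∈ Icc 1 n, M q.1 b ∧ M q.2 b)).card : ℝ) ≤ ε * (n : ℝ) ^ 2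
  adj : ∀ a ∈ V, ∃ b ∈ X, M a b ∧ (P1 a ↔ P1 b) ∧ (a + b) % 2 = 1
  cr : ∃ u ∈ X, ∃ v ∈ X, R u v ∧ P1 u ∧ ¬ P1 v

variable {c ε : ℝ} {X : Finset ℕ}

/-- `k` steps lead from `a` to all members of a large set of the same class mod 6 (up to sign) as `r` -/
def Bl (M : ℕ → ℕ → Prop) (V : Finset ℕ) (n : ℕ) (c : ℝ) (k a r : ℕ) : Prop :=
  ∃ S ⊆ Icc 1 n, c * n ≤ (S.card : ℝ) ∧ ∀ g ∈ S, Wk M V k a g ∧ (P1 r ↔ P1 g) ∧ r % 2 = g % 2

lemma R_odd {a b : ℕ} (h : R a b) : (a + b) % 2 = 1 := Nat.odd_iff.1 h.1.2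

/-- three steps from a good vertex -/
lemma Das.three (D : Das M V n c ε X) {x r : ℕ} (hx : x ∈ X) (h1 : P1 r ↔ P1 x) (h2 : (r + x) % 2 = 1) :
    Bl M V n c 3 x r := by
  classical
  obtain ⟨b, hb, hR, hc⟩ := D.gr x hx
  have hsub : N2 (XC X x) b ⊆ XC X x := by
    unfold N2
    exact filter_subset _ _
  refine ⟨N2 (XC X x) b, (hsub.trans (XC_sub _ _)).trans D.hX, hc, fun g hg => ?_⟩
  have hg1 := mem_XC.1 (hsub hg)
  unfold N2 at hg
  simp only [mem_filter] at hg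
  obtain ⟨_, m, hm, r1, r2⟩ := hg
  refine ⟨⟨b, D.hV (D.hX (XC_sub _ _ hb)), D.RM _ _ hR, m, D.hV (D.hX (XC_sub _ _ hm)), D.RM _ _ r1, g,
    D.hV (D.hX hg1.1), D.RM _ _ r2, rfl⟩,
    h1.trans hg1.2, ?_⟩
  have e1 := R_odd hR
  have e2 := R_odd r1
  have e3 := R_odd r2
  omega

/-- four steps from any vertex -/
lemma Das.four (D : Das M V n c ε X) {a : ℕ} (ha : a ∈ V) : Bl M V n c 4 a a := by
  obtain ⟨x, hx, hax, hp, ho⟩ := D.adj a ha
  obtain ⟨S, hS, hSc, hSg⟩ := D.three (r := a) hx hp ho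
  refine ⟨S, hS, hSc, fun g hg => ?_⟩
  obtain ⟨h1, h2, h3⟩ := hSg g hg
  have := (Wk.one (M := M) (D.hV (D.hX hx)) hax).trans h1
  exact ⟨this, h2, h3⟩

/-- two large sets in the same class are linked -/
lemma Das.link (D : Das M V n c ε X) {k l a a' r : ℕ} (ha' : a' ∈ V) (h1 : Bl M V n c k a r) (h2 : Bl M V n c l a' r) :
    Rc M V (k + 2 + l) a a' := by
  classical
  obtain ⟨S, hS, hSc, hSg⟩ := h1
  obtain ⟨T, hT, hTc, hTg⟩ := h2
  have hback : ∀ v ∈ T, Wk M V l v a' := fun v hv => Wk.symm D.sy ha' (hTg v hv).1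
  by_contra hcon
  have hdis : ∀ u ∈ S, u ∉ T := by
    intro u hu hu'
    exact hcon ⟨k + l, by omega, (hSg u hu).1.trans (hback u hu')⟩
  have hno : ∀ u ∈ S, ∀ v ∈ T, ¬ ∃ m ∈ Icc 1 n, M u m ∧ M v m := by
    rintro u hu v hv ⟨m, hm, m1, m2⟩
    have w1 : Wk M V 2 u v := ⟨m, D.hV hm, m1, v, D.hV (hT hv), D.sy _ _ m2, rfl⟩
    exact hcon ⟨k + 2 + l, le_rfl, ((hSg u hu).1.trans w1).trans (hback v hv)⟩
  have h4 : ((S ×ˢ T).card : ℝ) ≤ ε * (n : ℝ) ^ 2 := by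
    refine le_trans (Nat.cast_le.2 (card_le_card_of_injOn (fun q => (min q.1 q.2, max q.1 q.2)) ?_ ?_)) D.lk
    · intro q hq
      have hq' := mem_product.1 (mem_coe.1 hq)
      obtain ⟨a1, b1⟩ := hq'
      have ha := mem_Icc.1 (hS a1)
      have hb := mem_Icc.1 (hT b1)
      have hne : q.1 ≠ q.2 := by
        intro h
        exact hdis _ a1 (h ▸ b1)
      obtain ⟨-, c1, c2⟩ := hSg _ a1
      obtain ⟨-, c3, c4⟩ := hTg _ b1
      have hSC : SC q.1 q.2 := by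
        unfold P1 at c1 c3
        unfold SC
        omega
      have hSC' : SC q.2 q.1 := ⟨hSC.1.symm, hSC.2.symm⟩
      have hno1 := hno _ a1 _ b1
      rw [mem_coe]
      simp only [mem_filter, mem_product, mem_Icc]
      rcases Nat.lt_or_ge q.1 q.2 with h | h
      · rw [min_eq_left h.le, max_eq_right h.le]
        refine ⟨⟨ha, hb⟩, h, hSC, ?_⟩
        rintro ⟨m, hm, e1, e2⟩
        exact hno1 ⟨m, mem_Icc.2 hm, e1, e2⟩
      · rw [min_eq_right h, max_eq_left h]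
        refine ⟨⟨hb, ha⟩, by omega, hSC', ?_⟩
        rintro ⟨m, hm, e1, e2⟩
        exact hno1 ⟨m, mem_Icc.2 hm, e2, e1⟩
    · intro q hq q' hq' he
      have m1 := mem_product.1 (mem_coe.1 hq)
      have m2 := mem_product.1 (mem_coe.1 hq')
      simp only [Prod.mk.injEq] at he
      have n1 : q.1 ≠ q'.2 := fun h => hdis _ m1.1 (h ▸ m2.2)
      have n2 : q'.1 ≠ q.2 := fun h => hdis _ m2.1 (h ▸ m1.2)
      apply Prod.ext <;> omega
  rw [card_product] at h4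
  push_cast at h4
  have hn : (1 : ℝ) ≤ n := by exact_mod_cast D.hn
  have hc := D.c0
  have h5 : (c * n) * (c * n) ≤ (S.card : ℝ) * T.card := mul_le_mul hSc hTc (by positivity) (by positivity)
  have h6 := D.εc
  have h7 : (0 : ℝ) < (n : ℝ) ^ 2 := by positivity
  have h8 : ε * (n : ℝ) ^ 2 < c ^ 2 * (n : ℝ) ^ 2 := mul_lt_mul_of_pos_right h6 h7
  nlinarith

lemma Bl.congr {k a r r' : ℕ} (h : Bl M V n c k a r) (h1 : P1 r' ↔ P1 r) (h2 : r' % 2 = r % 2) : Bl M V n c k a r' := by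
  obtain ⟨S, hS, hSc, hSg⟩ := h
  exact ⟨S, hS, hSc, fun g hg => ⟨(hSg g hg).1, h1.trans (hSg g hg).2.1, h2.trans (hSg g hg).2.2⟩⟩

/-- the same class -/
lemma Das.same (D : Das M V n c ε X) {a a' : ℕ} (ha : a ∈ V) (ha' : a' ∈ V) (h1 : P1 a ↔ P1 a')
    (h2 : a % 2 = a' % 2) : Rc M V 10 a a' :=
  D.link ha' (D.four ha) ((D.four ha').congr h1 h2)

/-- to a good vertex -/
lemma Das.good (D : Das M V n c ε X) {a x : ℕ} (ha : a ∈ V) (hx : x ∈ X) (h1 : P1 a ↔ P1 x) : Rc M V 10 a x := by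
  rcases Nat.mod_two_eq_zero_or_one (a + x) with h | h
  · exact D.same ha (D.hV (D.hX hx)) h1 (by omega)
  · exact (D.link (D.hV (D.hX hx)) (D.four ha) (D.three (r := a) hx h1 h)).mono (by norm_num)

/-- the class `P1` or its complement -/
lemma Das.half (D : Das M V n c ε X) {a a' : ℕ} (ha : a ∈ V) (ha' : a' ∈ V) (h1 : P1 a ↔ P1 a') :
    Rc M V 11 a a' := by
  obtain ⟨x, hx, hax, hp, ho⟩ := D.adj a' ha'
  exact (D.good ha hx (h1.trans hp)).trans (Rc.one ha' (D.sy _ _ hax))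

theorem Das.dia (D : Das M V n c ε X) {a a' : ℕ} (ha : a ∈ V) (ha' : a' ∈ V) : Rc M V 21 a a' := by
  obtain ⟨u, hu, v, hv, huv, pu, pv⟩ := D.cr
  -- from a member of `P1` to a non-member
  have key : ∀ a ∈ V, ∀ a' ∈ V, P1 a → ¬ P1 a' → Rc M V 21 a a' := by
    intro a ha a' ha' h1 h2
    have w1 := D.good ha hu (by simp only [h1, pu])
    have w2 := D.good ha' hv (by simp only [h2, pv])
    have w3 := w1.trans (Rc.one (D.hV (D.hX hv)) (D.RM _ _ huv))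
    exact w3.trans (Rc.symm D.sy ha' w2)
  by_cases h1 : P1 a <;> by_cases h2 : P1 a'
  · exact (D.half ha ha' (by simp only [h1, h2])).mono (by norm_num)
  · exact key a ha a' ha' h1 h2
  · exact Rc.symm D.sy ha' (key a' ha' a ha h2 h1)
  · exact (D.half ha ha' (by simp only [h1, h2])).mono (by norm_num)

end Pool.Agent.P8H49.GM
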