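import Pool.Agent.P8H49.GM.LinkG

set_option autoImplicit false

/-!
# Project GM: almost all pairs of vertices of the same class have a common neighbour, for both graphs
-/

namespace Pool.Agent.P8H49.GM

open Finset
open Pool.Agent.H373R2.T7 (pz Vz mem_pz Vz_pos)

open Classical in
/-- almost all pairs of the same class have a common neighbour -/
def S_LINKG (M : ℕ → ℕ → ℕ → ℕ → Prop) : Prop := ∀ ε : ℝ, 0 < ε → ∃ K0 : ℕ, ∀ K : ℕ, K0 ≤ K → ∃ n0 : ℕ, ∀ n : ℕ, n0 ≤ n →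
  (((Icc 1 n ×ˢ Icc 1 n).filter (fun q : ℕ × ℕ => q.1 < q.2 ∧ SC q.1 q.2 ∧
    ¬ ∃ b ∈ Icc 1 n, M K n q.1 b ∧ M K n q.2 b)).card : ℝ) ≤ ε * (n : ℝ) ^ 2

/-- the primes give common neighbours, sum prime -/
lemma ad_S {n K y w A B X1 X2 α h β : ℕ} (hK : n < (y + 1) ^ K) (hw : 3 ≤ w) (hα : α < WW w) (hβW : β < WW w)
    (hβ : Bc w α h β) (hBX : B ≤ X1) (hXA : X2 ≤ n + A) : Ad (MS K n) n y w A B X1 X2 α h β := by
  refine ⟨α + β, by omega, ?_, ?_⟩
  · intro p hp
    have h1 := (hβ p hp).1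
    have h2 := (hβ p hp).2.2.1
    constructor
    · intro h3
      apply h1
      have : ((p : ℕ) : ℤ) ∣ ((α + β : ℕ) : ℤ) := by exact_mod_cast h3
      push_cast at this
      exact this
    · intro h3
      apply h2
      have : ((p : ℕ) : ℤ) ∣ ((α + β + h : ℕ) : ℤ) := by exact_mod_cast h3
      push_cast at this ⊢
      have e : (α : ℤ) + h + β = α + β + h := by ring
      rw [e]
      exact this
  · intro a x hAa haB han ha hx hr h1 h2
    unfold PP at hx
    simp only [mem_filter, mem_Ioc] at hx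
    obtain ⟨⟨x1, x2⟩, hx, hxp, hxh⟩ := hx
    have hax : a < x := by omega
    have hxn : x ≤ n + a := by omega
    obtain ⟨b, hb, m1, m2⟩ := adj_of hK hw hβ ha hx hxp hxh hr hax hxn h1 h2
    -- the first alternative holds because `a + b = x`
    obtain ⟨b', rfl⟩ : ∃ b', x = a + b' := ⟨x - a, by omega⟩
    clear m1 m2 hb b
    have two : 2 ∈ pz w := mem_pz.2 ⟨by omega, Nat.prime_two⟩
    have c2 : ∀ p ∈ pz w, ¬ (p : ℤ) ∣ 2 * (a : ℤ) - ((a + b' : ℕ) : ℤ) := by
      intro p hp hd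
      have e1 := modEq_int (dvd_WW hp) hx
      have e2 := modEq_int (dvd_WW hp) ha
      apply (hβ p hp).2.1
      have := dvd_sub (dvd_add hd e1) (Dvd.dvd.mul_left e2 2)
      push_cast at this ⊢
      ring_nf at this ⊢
      exact this
    have c1 : ¬ (2 : ℤ) ∣ ((a + b' : ℕ) : ℤ) := by
      intro hd
      have e1 := modEq_int (dvd_WW two) hx
      apply (hβ 2 two).1
      have := dvd_sub hd e1
      push_cast at this ⊢
      ring_nf at this ⊢
      exact this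
    have c3 : ¬ (2 : ℤ) ∣ ((a + b' + h : ℕ) : ℤ) := by
      intro hd
      have e1 := modEq_int (dvd_WW two) hx
      apply (hβ 2 two).2.2.1
      have := dvd_sub hd e1
      push_cast at this ⊢
      ring_nf at this ⊢
      exact this
    have c4 : ∀ p ∈ pz w, ¬ (p : ℤ) ∣ 2 * (a : ℤ) + h - ((a + b' : ℕ) : ℤ) := by
      intro p hp hd
      have e1 := modEq_int (dvd_WW hp) hx
      have e2 := modEq_int (dvd_WW hp) ha
      apply (hβ p hp).2.2.2
      have := dvd_sub (dvd_add hd e1) (Dvd.dvd.mul_left e2 2)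
      push_cast at this ⊢
      ring_nf at this ⊢
      exact this
    have odd1 : Odd (a + b') := by
      rw [Nat.odd_iff]
      omega
    have odd2 : Odd (a + h + b') := by
      rw [Nat.odd_iff]
      omega
    have d1 : ((Nat.dist a b' : ℕ) : ℤ) = |2 * (a : ℤ) - ((a + b' : ℕ) : ℤ)| := by
      have : 2 * (a : ℤ) - ((a + b' : ℕ) : ℤ) = a - b' := by push_cast; ring
      rw [this]
      simp only [Nat.dist]
      rcases le_total a b' with h | h
      · rw [abs_of_nonpos (by linarith [(by exact_mod_cast h : (a : ℤ) ≤ b')])]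
        omega
      · rw [abs_of_nonneg (by linarith [(by exact_mod_cast h : (b' : ℤ) ≤ a)])]
        omega
    have d2 : ((Nat.dist (a + h) b' : ℕ) : ℤ) = |2 * (a : ℤ) + h - ((a + b' : ℕ) : ℤ)| := by
      have : 2 * (a : ℤ) + h - ((a + b' : ℕ) : ℤ) = ((a + h : ℕ) : ℤ) - b' := by push_cast; ring
      rw [this]
      simp only [Nat.dist]
      rcases le_total (a + h) b' with h' | h'
      · rw [abs_of_nonpos (by linarith [(by exact_mod_cast h' : ((a + h : ℕ) : ℤ) ≤ b')])]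
        omega
      · rw [abs_of_nonneg (by linarith [(by exact_mod_cast h' : (b' : ℤ) ≤ ((a + h : ℕ) : ℤ))])]
        omega
    have g1 : Rog K n (Nat.dist a b') := rog_of hK hw d1 (by
      intro h
      apply h1
      rw [h] at d1
      rw [← Int.natAbs_abs, ← d1]
      rfl) c2 (fun p hp hwp => (hr p hp hwp).1)
    have g2 : Rog K n (Nat.dist (a + h) b') := rog_of hK hw d2 (by
      intro h'
      apply h2
      rw [h'] at d2
      rw [← Int.natAbs_abs, ← d2]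
      rfl) c4 (fun p hp hwp => (hr p hp hwp).2)
    have ne1 : a ≠ b' := by
      rintro rfl
      have := g1.1
      rw [Nat.dist_self] at this
      omega
    have ne2 : a + h ≠ b' := by
      rintro rfl
      have := g2.1
      rw [Nat.dist_self] at this
      omega
    refine ⟨b', mem_Icc.2 ⟨by omega, by omega⟩, ⟨ne1, ⟨hxp, odd1⟩, Or.inr g1⟩, ⟨ne2, ⟨?_, odd2⟩, Or.inr g2⟩⟩
    have : a + h + b' = a + b' + h := by ring
    rw [this]
    exact hxh

/-- the primes give common neighbours, difference prime -/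
lemma ad_D {n K y w A B X1 X2 α h β : ℕ} (hK : n < (y + 1) ^ K) (hw : 3 ≤ w) (hα : α < WW w) (hβW : β < WW w)
    (hβ : Bc w α h β) (hXA : X2 ≤ A) : Ad (MD K n) n y w A B X1 X2 α h β := by
  -- `ξ ≡ α - β`
  have hξ : ∀ p ∈ pz w, (p : ℤ) ∣ ((α + (WW w - β) : ℕ) : ℤ) - (α - β) := by
    intro p hp
    have e1 : ((α + (WW w - β) : ℕ) : ℤ) - (α - β) = (WW w : ℤ) := by
      push_cast [Nat.cast_sub hβW.le]
      ring
    rw [e1]
    exact_mod_cast dvd_WW hp
  refine ⟨α + (WW w - β), by omega, ?_, ?_⟩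
  · intro p hp
    have h1 := (hβ p hp).2.1
    have h2 := (hβ p hp).2.2.2
    have h0 := hξ p hp
    constructor
    · intro h3
      apply h1
      have h4 : ((p : ℕ) : ℤ) ∣ ((α + (WW w - β) : ℕ) : ℤ) := by exact_mod_cast h3
      have h5 := dvd_sub h4 h0
      rwa [sub_sub_cancel] at h5
    · intro h3
      apply h2
      have h4 : ((p : ℕ) : ℤ) ∣ ((α + (WW w - β) + h : ℕ) : ℤ) := by exact_mod_cast h3
      have h5 := dvd_sub h4 h0
      rw [Nat.cast_add] at h5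
      rw [Nat.cast_add]
      have e : ((α + (WW w - β) : ℕ) : ℤ) + (h : ℤ) - (((α + (WW w - β) : ℕ) : ℤ) - (α - β)) = (α : ℤ) + h - β := by ring
      rwa [e] at h5
  · intro a x hAa haB han ha hx hr h1 h2
    unfold PP at hx
    simp only [mem_filter, mem_Ioc] at hx
    obtain ⟨⟨x1, x2⟩, hx, hxp, hxh⟩ := hx
    obtain ⟨b, hab⟩ : ∃ b, a = b + x := ⟨a - x, by omega⟩
    have two : 2 ∈ pz w := mem_pz.2 ⟨by omega, Nat.prime_two⟩
    -- `x ≡ α - β`, `a ≡ α`
    have ex : ∀ p ∈ pz w, (p : ℤ) ∣ (x : ℤ) - (α - β) := by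
      intro p hp
      have e1 := modEq_int (dvd_WW hp) hx
      have e2 := dvd_add e1 (hξ p hp)
      rwa [sub_add_sub_cancel] at e2
    have ea : ∀ p ∈ pz w, (p : ℤ) ∣ (a : ℤ) - α := fun p hp => modEq_int (dvd_WW hp) ha
    have c1 : ¬ (2 : ℤ) ∣ (x : ℤ) := by
      intro hd
      apply (hβ 2 two).2.1
      have h5 := dvd_sub hd (ex 2 two)
      rwa [sub_sub_cancel] at h5
    have c3 : ¬ (2 : ℤ) ∣ (x : ℤ) + h := by
      intro hd
      apply (hβ 2 two).2.2.2
      have h5 := dvd_sub hd (ex 2 two)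
      have e : (x : ℤ) + h - ((x : ℤ) - (α - β)) = ((α + h : ℕ) : ℤ) - β := by push_cast; ring
      rwa [e] at h5
    have c2 : ∀ p ∈ pz w, ¬ (p : ℤ) ∣ 2 * (a : ℤ) - x := by
      intro p hp hd
      apply (hβ p hp).1
      have h5 := dvd_sub (dvd_add hd (ex p hp)) (Dvd.dvd.mul_left (ea p hp) 2)
      have e : 2 * (a : ℤ) - x + (x - (α - β)) - 2 * (a - α) = (α : ℤ) + β := by ring
      rwa [e] at h5
    have c4 : ∀ p ∈ pz w, ¬ (p : ℤ) ∣ 2 * (a : ℤ) + h - x := by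
      intro p hp hd
      apply (hβ p hp).2.2.1
      have h5 := dvd_sub (dvd_add hd (ex p hp)) (Dvd.dvd.mul_left (ea p hp) 2)
      have e : 2 * (a : ℤ) + h - x + (x - (α - β)) - 2 * (a - α) = ((α + h : ℕ) : ℤ) + β := by push_cast; ring
      rwa [e] at h5
    have odd1 : Odd x := by
      rw [Nat.odd_iff]
      omega
    have odd2 : Odd (x + h) := by
      rw [Nat.odd_iff]
      omega
    have d1 : ((a + b : ℕ) : ℤ) = |2 * (a : ℤ) - x| := by
      rw [abs_of_nonneg (by omega)]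
      omega
    have d2 : ((a + h + b : ℕ) : ℤ) = |2 * (a : ℤ) + h - x| := by
      rw [abs_of_nonneg (by omega)]
      omega
    have g1 : Rog K n (a + b) := rog_of hK hw d1 (by
      intro h
      apply h1
      rw [h] at d1
      rw [← Int.natAbs_abs, ← d1]
      rfl) c2 (fun p hp hwp => (hr p hp hwp).1)
    have g2 : Rog K n (a + h + b) := rog_of hK hw d2 (by
      intro h'
      apply h2
      rw [h'] at d2
      rw [← Int.natAbs_abs, ← d2]
      rfl) c4 (fun p hp hwp => (hr p hp hwp).2)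
    have hx2 := hxp.two_le
    have f1 : Nat.dist a b = x := by
      simp only [Nat.dist]
      omega
    have f2 : Nat.dist (a + h) b = x + h := by
      simp only [Nat.dist]
      omega
    refine ⟨b, mem_Icc.2 ⟨by omega, by omega⟩, ⟨by omega, ?_, Or.inr g1⟩, ⟨by omega, ?_, Or.inr g2⟩⟩
    · rw [f1]
      exact ⟨hxp, odd1⟩
    · rw [f2]
      exact ⟨hxh, odd2⟩

/-- reduction to the classes and windows -/
lemma split_two {M : ℕ → ℕ → Prop} (n W m : ℕ) (hW : 0 < W) (S : Finset (ℕ × ℕ)) (hS : ∀ q ∈ S, q.1 ∈ Icc 1 n ∧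
    q.2 ∈ Icc 1 n ∧ q.1 < q.2 ∧ SC q.1 q.2 ∧ ¬ ∃ b ∈ Icc 1 n, M q.1 b ∧ M q.2 b) :
    S.card ≤ ∑ α ∈ range W, ∑ h ∈ Icc 1 n, (Be M n W 0 m α h).card +
      ∑ α ∈ range W, ∑ h ∈ Icc 1 n, (Be M n W m n α h).card := by
  classical
  have hsub : S ⊆ (range W ×ˢ Icc 1 n).biUnion (fun c => (Be M n W 0 m c.1 c.2 ∪ Be M n W m n c.1 c.2).image
      (fun a => (a, a + c.2))) := by
    intro q hq
    obtain ⟨h1, h2, h3, h4, h5⟩ := hS q hq
    rw [mem_Icc] at h1 h2
    rw [mem_biUnion]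
    have e : q.1 + (q.2 - q.1) = q.2 := by omega
    refine ⟨(q.1 % W, q.2 - q.1), mem_product.2 ⟨mem_range.2 (Nat.mod_lt _ hW), mem_Icc.2 ⟨by
      show 1 ≤ q.2 - q.1
      omega, by
      show q.2 - q.1 ≤ n
      omega⟩⟩, ?_⟩
    rw [mem_image]
    refine ⟨q.1, ?_, ?_⟩
    · rw [mem_union, mem_Be, mem_Be]
      simp only [e]
      have h6 : q.1 ≡ q.1 % W [MOD W] := (Nat.mod_modEq _ _).symm
      rcases Nat.lt_or_ge m q.1 with h | h
      · exact Or.inr ⟨⟨h, h1.2⟩, h6, h2.2, h4, h5⟩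
      · exact Or.inl ⟨⟨by omega, h⟩, h6, h2.2, h4, h5⟩
    · simp only [e]
  refine (card_le_card hsub).trans (card_biUnion_le.trans ?_)
  rw [sum_product, ← sum_add_distrib]
  apply sum_le_sum
  intro α _
  rw [← sum_add_distrib]
  apply sum_le_sum
  intro h _
  exact card_image_le.trans (card_union_le _ _)

/-- reduction to the classes, the small vertices bounded trivially -/
lemma split_one {M : ℕ → ℕ → Prop} (n W m : ℕ) (hW : 0 < W) (S : Finset (ℕ × ℕ)) (hS : ∀ q ∈ S, q.1 ∈ Icc 1 n ∧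
    q.2 ∈ Icc 1 n ∧ q.1 < q.2 ∧ SC q.1 q.2 ∧ ¬ ∃ b ∈ Icc 1 n, M q.1 b ∧ M q.2 b) :
    S.card ≤ m * n + ∑ α ∈ range W, ∑ h ∈ Icc 1 n, (Be M n W m n α h).card := by
  classical
  have hsub : S ⊆ (Icc 1 m ×ˢ Icc 1 n) ∪ (range W ×ˢ Icc 1 n).biUnion (fun c => (Be M n W m n c.1 c.2).image
      (fun a => (a, a + c.2))) := by
    intro q hq
    obtain ⟨h1, h2, h3, h4, h5⟩ := hS q hq
    rw [mem_Icc] at h1 h2
    rw [mem_union]
    rcases Nat.lt_or_ge m q.1 with h | h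
    · right
      rw [mem_biUnion]
      have e : q.1 + (q.2 - q.1) = q.2 := by omega
      refine ⟨(q.1 % W, q.2 - q.1), mem_product.2 ⟨mem_range.2 (Nat.mod_lt _ hW), mem_Icc.2 ⟨by
        show 1 ≤ q.2 - q.1
        omega, by
        show q.2 - q.1 ≤ n
        omega⟩⟩, ?_⟩
      rw [mem_image]
      refine ⟨q.1, ?_, ?_⟩
      · rw [mem_Be]
        simp only [e]
        have h6 : q.1 ≡ q.1 % W [MOD W] := (Nat.mod_modEq _ _).symm
        exact ⟨⟨h, h1.2⟩, h6, h2.2, h4, h5⟩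
      · simp only [e]
    · left
      exact mem_product.2 ⟨mem_Icc.2 ⟨h1.1, h⟩, mem_Icc.2 h2⟩
  refine (card_le_card hsub).trans ((card_union_le _ _).trans ?_)
  apply Nat.add_le_add
  · rw [card_product, Nat.card_Icc, Nat.card_Icc]
    simp
  · refine card_biUnion_le.trans ?_
    rw [sum_product]
    apply sum_le_sum
    intro α _
    apply sum_le_sum
    intro h _
    exact card_image_le

theorem link_S (hV : S_VAR) (hS : S_SUM) (hP : S_PP2) (hB : S_BETA) (hA : S_AVG) (hPr : S_PROD) : S_LINKG MS := by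
  intro ε hε
  obtain ⟨K0, w, hw, hwin⟩ := win_gen hV hS hP hB hA hPr ε (1 / 3) hε (by norm_num)
  refine ⟨K0, fun K hK => ?_⟩
  obtain ⟨n0, hn0⟩ := hwin K hK
  refine ⟨n0 + 3, fun n hn => ?_⟩
  obtain ⟨y, hy, hW⟩ := hn0 n (by omega)
  have hnr : (3 : ℝ) ≤ n := by exact_mod_cast (by omega : 3 ≤ n)
  have hfl : (1 : ℝ) / 3 * n ≤ ((n / 2 : ℕ) : ℝ) := by
    have h1 : n ≤ 3 * (n / 2) := by omega
    have h2 : (n : ℝ) ≤ 3 * ((n / 2 : ℕ) : ℝ) := by exact_mod_cast h1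
    linarith
  have key : ∀ A B : ℕ, A ≤ B → B ≤ n → B + n / 2 ≤ n + A →
      ((∑ α ∈ range (WW w), ∑ h ∈ Icc 1 n, (Be (MS K n) n (WW w) A B α h).card : ℕ) : ℝ) ≤ 7 / 16 * ε * (n : ℝ) ^ 2 := by
    intro A B hAB hBn hBA
    push_cast
    have h3 := hW (MS K n) A B B (B + n / 2) hAB hBn (by omega) (by omega) (by push_cast; linarith)
      (fun α h β hα hβ hc => ad_S hy hw hα hβ hc le_rfl (by omega))
    have hWr : (0 : ℝ) < WW w := by exact_mod_cast WW_pos w
    calc _ ≤ ∑ α ∈ range (WW w), 7 / 16 * ε * (n : ℝ) ^ 2 / WW w := sum_le_sum fun α hα => h3 α (mem_range.1 hα)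
      _ = 7 / 16 * ε * (n : ℝ) ^ 2 := by
          rw [sum_const, card_range, nsmul_eq_mul]
          field_simp
  have s1 := key 0 (n / 2) (by omega) (by omega) (by omega)
  have s2 := key (n / 2) n (by omega) le_rfl (by omega)
  refine le_trans (Nat.cast_le.2 (split_two (M := MS K n) n (WW w) (n / 2) (WW_pos w) _ (fun q hq => ?_))) ?_
  · simp only [mem_filter, mem_product] at hq
    exact ⟨hq.1.1, hq.1.2, hq.2.1, hq.2.2.1, hq.2.2.2⟩
  · rw [Nat.cast_add]
    have hn2 : 0 ≤ ε * (n : ℝ) ^ 2 := by positivity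
    linarith

theorem link_D (hV : S_VAR) (hS : S_SUM) (hP : S_PP2) (hB : S_BETA) (hA : S_AVG) (hPr : S_PROD) : S_LINKG MD := by
  intro ε hε
  obtain ⟨τ, hτ⟩ : ∃ τ : ℝ, τ = min ε 1 := ⟨_, rfl⟩
  have hτ0 : 0 < τ := by rw [hτ]; exact lt_min hε one_pos
  have hτ1 : τ ≤ 1 := by rw [hτ]; exact min_le_right _ _
  have hτε : τ ≤ ε := by rw [hτ]; exact min_le_left _ _
  obtain ⟨K0, w, hw, hwin⟩ := win_gen hV hS hP hB hA hPr ε (τ / 4) hε (by positivity)
  refine ⟨K0, fun K hK => ?_⟩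
  obtain ⟨n0, hn0⟩ := hwin K hK
  obtain ⟨n1, hn1⟩ := exists_nat_ge (4 / τ)
  refine ⟨n0 + n1 + 3, fun n hn => ?_⟩
  obtain ⟨y, hy, hW⟩ := hn0 n (by omega)
  have hnr : (3 : ℝ) ≤ n := by exact_mod_cast (by omega : 3 ≤ n)
  have hn1r : 4 / τ ≤ n := by
    refine hn1.trans ?_
    exact_mod_cast (by omega : n1 ≤ n)
  obtain ⟨m, hm⟩ : ∃ m, m = ⌊τ / 2 * n⌋₊ := ⟨_, rfl⟩
  have hm1 : (m : ℝ) ≤ τ / 2 * n := by rw [hm]; exact Nat.floor_le (by positivity)
  have hm2 : τ / 2 * n < m + 1 := by rw [hm]; exact Nat.lt_floor_add_one _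
  have hmn : m ≤ n := by
    have : (m : ℝ) ≤ n := by nlinarith
    exact_mod_cast this
  have hκ : τ / 4 * n ≤ (m : ℝ) - (0 : ℕ) := by
    rw [div_le_iff₀ hτ0] at hn1r
    push_cast
    linarith
  have h3 := hW (MD K n) m n 0 m hmn le_rfl (by omega) (by omega) hκ
      (fun α h β hα hβ hc => ad_D hy hw hα hβ hc le_rfl)
  have s1 : ((∑ α ∈ range (WW w), ∑ h ∈ Icc 1 n, (Be (MD K n) n (WW w) m n α h).card : ℕ) : ℝ) ≤
      7 / 16 * ε * (n : ℝ) ^ 2 := by
    push_cast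
    have hWr : (0 : ℝ) < WW w := by exact_mod_cast WW_pos w
    calc _ ≤ ∑ α ∈ range (WW w), 7 / 16 * ε * (n : ℝ) ^ 2 / WW w := sum_le_sum fun α hα => h3 α (mem_range.1 hα)
      _ = 7 / 16 * ε * (n : ℝ) ^ 2 := by
          rw [sum_const, card_range, nsmul_eq_mul]
          field_simp
  refine le_trans (Nat.cast_le.2 (split_one (M := MD K n) n (WW w) m (WW_pos w) _ (fun q hq => ?_))) ?_
  · simp only [mem_filter, mem_product] at hq
    exact ⟨hq.1.1, hq.1.2, hq.2.1, hq.2.2.1, hq.2.2.2⟩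
  · rw [Nat.cast_add, Nat.cast_mul]
    have h4 : (m : ℝ) * n ≤ ε / 2 * (n : ℝ) ^ 2 := by
      have h5 : (m : ℝ) * n ≤ τ / 2 * n * n := mul_le_mul_of_nonneg_right hm1 (by linarith)
      have h6 : τ / 2 * n * n ≤ ε / 2 * (n : ℝ) ^ 2 := by
        have : τ / 2 * n * n = τ / 2 * (n : ℝ) ^ 2 := by ring
        rw [this]
        exact mul_le_mul_of_nonneg_right (by linarith) (by positivity)
      linarith
    have hn2 : 0 ≤ ε * (n : ℝ) ^ 2 := by positivity
    linarith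

end Pool.Agent.P8H49.GM
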