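import Pool.Agent.P8H49.GM.Dia
import Pool.Agent.P8H49.GM.LinkSD

set_option autoImplicit false

/-!
# Project GM: crossing edges, the vertex zero, and the diameter of the graphs on the halves
-/

namespace Pool.Agent.P8H49.GM

open Finset
open Pool.Agent.R521.GG (R dg cd LL S_mom S_codeg S_wsum S_gold S_twin S_peel LL_large N2 R_comm1 R_symm1)

lemma many_primes : ∃ n₀ : ℕ, ∀ n : ℕ, n₀ ≤ n → (n : ℝ) / (2 * Real.log n) ≤ (((Icc 7 n).filter Nat.Prime).card : ℝ) := by
  have h1 := (Real.isLittleO_log_id_atTop.bound (c := 1 / 100) (by norm_num))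
  have h2 := (tendsto_natCast_atTop_atTop (R := ℝ)).eventually h1
  obtain ⟨n₀, h0⟩ := Filter.eventually_atTop.1 h2
  refine ⟨n₀ + 100, fun n hn => ?_⟩
  have h3 := h0 n (by omega)
  have hnr : (100 : ℝ) ≤ n := by exact_mod_cast (by omega : 100 ≤ n)
  have hlog : 0 < Real.log n := Real.log_pos (by linarith)
  rw [Real.norm_of_nonneg hlog.le, id, Real.norm_of_nonneg (by linarith)] at h3
  have h4 := Chebyshev.psi_ge n
  have h5 := Chebyshev.psi_le_primeCounting_mul_log n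
  have h6 : Real.log ((n : ℝ) + 1) ≤ Real.log n + 1 := by
    have e : (n : ℝ) + 1 ≤ n * Real.exp 1 := by
      have := Real.add_one_le_exp (1 : ℝ)
      nlinarith
    calc Real.log ((n : ℝ) + 1) ≤ Real.log (n * Real.exp 1) := Real.log_le_log (by linarith) e
      _ = Real.log n + 1 := by rw [Real.log_mul (by linarith) (Real.exp_pos 1).ne', Real.log_exp]
  have hlog2 : (0.69 : ℝ) < Real.log 2 := by
    have := Real.log_two_gt_d9
    linarith
  have hcount : Nat.primeCounting n ≤ ((Icc 7 n).filter Nat.Prime).card + 3 := by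
    rw [Nat.primeCounting, Nat.primeCounting', Nat.count_eq_card_filter_range]
    have hsub : (range (n + 1)).filter Nat.Prime ⊆ (Icc 7 n).filter Nat.Prime ∪ {2, 3, 5} := by
      intro p hp
      rw [mem_filter, mem_range] at hp
      rw [mem_union, mem_filter, mem_Icc]
      by_cases h7 : 7 ≤ p
      · exact Or.inl ⟨⟨h7, by omega⟩, hp.2⟩
      · right
        have h8 : p < 7 := by omega
        have h9 := hp.2
        interval_cases p <;> first | decide | (exfalso; revert h9; norm_num)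
    refine (card_le_card hsub).trans ((card_union_le _ _).trans ?_)
    have : ({2, 3, 5} : Finset ℕ).card ≤ 3 := card_le_three
    omega
  have hcr : (Nat.primeCounting n : ℝ) ≤ (((Icc 7 n).filter Nat.Prime).card : ℝ) + 3 := by exact_mod_cast hcount
  rw [div_le_iff₀ (by positivity)]
  have h7 : (Nat.primeCounting n : ℝ) * Real.log n ≤ ((((Icc 7 n).filter Nat.Prime).card : ℝ) + 3) * Real.log n :=
    mul_le_mul_of_nonneg_right hcr hlog.le
  nlinarith

lemma few_compl {n : ℕ} {X : Finset ℕ} (hn : 2 ≤ n) (hlog : 3 ≤ Real.log n)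
    (hX : ((Icc 1 n \ X).card : ℝ) ≤ n / Real.log n ^ 3)
    (hp : (n : ℝ) / (2 * Real.log n) ≤ (((Icc 7 n).filter Nat.Prime).card : ℝ)) :
    2 * (Icc 1 n \ X).card < ((Icc 7 n).filter Nat.Prime).card := by
  have hnr : (2 : ℝ) ≤ n := by exact_mod_cast hn
  have h1 : (2 : ℝ) * (n / Real.log n ^ 3) < n / (2 * Real.log n) := by
    have h2 : (4 : ℝ) < Real.log n ^ 2 := by nlinarith
    have e : (n : ℝ) / (2 * Real.log n) = n / Real.log n ^ 3 * (Real.log n ^ 2 / 2) := by field_simp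
    rw [e]
    have h3 : 0 < (n : ℝ) / Real.log n ^ 3 := by positivity
    nlinarith
  have h2 : (2 * (Icc 1 n \ X).card : ℝ) < (((Icc 7 n).filter Nat.Prime).card : ℝ) := by linarith
  exact_mod_cast h2

/-- a crossing edge -/
lemma crossing {n : ℕ} {X : Finset ℕ} (h : 2 * (Icc 1 n \ X).card < ((Icc 7 n).filter Nat.Prime).card) :
    ∃ u ∈ X, ∃ v ∈ X, R u v ∧ P1 u ∧ ¬ P1 v := by
  classical
  by_contra hcon
  push Not at hcon
  have hsub : (Icc 7 n).filter Nat.Prime ⊆ (Icc 1 n \ X).image (fun u => 2 * u + 3) ∪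
      (Icc 1 n \ X).image (fun v => 2 * v - 3) := by
    intro p hp
    rw [mem_filter, mem_Icc] at hp
    obtain ⟨⟨h7, hpn⟩, hpp⟩ := hp
    have h2 : p % 2 = 1 := Nat.odd_iff.1 (hpp.odd_of_ne_two (by omega))
    obtain ⟨u, hu⟩ : ∃ u, p = 2 * u + 3 := ⟨(p - 3) / 2, by omega⟩
    have h3 : ¬ 3 ∣ p := by
      intro h3
      have := (Nat.prime_dvd_prime_iff_eq Nat.prime_three hpp).1 h3
      omega
    rw [mem_union, mem_image, mem_image]
    by_cases hu' : u ∈ X
    · by_cases hv : u + 3 ∈ X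
      · exfalso
        have hR : R u (u + 3) := by
          have e1 : u + (u + 3) = p := by omega
          have e2 : Nat.dist u (u + 3) = 3 := by
            simp only [Nat.dist]
            omega
          refine ⟨?_, ?_⟩
          · rw [e1]
            exact ⟨hpp, Nat.odd_iff.2 h2⟩
          · rw [e2]
            exact ⟨Nat.prime_three, by decide⟩
        rcases Nat.mod_two_eq_zero_or_one u with hp2 | hp2
        · have h9 := hcon (u + 3) hv u hu' (R_symm1 hR)
          unfold P1 at h9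
          omega
        · have h9 := hcon u hu' (u + 3) hv hR
          unfold P1 at h9
          omega
      · right
        exact ⟨u + 3, mem_sdiff.2 ⟨mem_Icc.2 ⟨by omega, by omega⟩, hv⟩, by omega⟩
    · left
      exact ⟨u, mem_sdiff.2 ⟨mem_Icc.2 ⟨by omega, by omega⟩, hu'⟩, by omega⟩
  have h1 := (card_le_card hsub).trans (card_union_le _ _)
  have h2 : ((Icc 1 n \ X).image (fun u => 2 * u + 3)).card ≤ (Icc 1 n \ X).card := card_image_le
  have h3 : ((Icc 1 n \ X).image (fun v => 2 * v - 3)).card ≤ (Icc 1 n \ X).card := card_image_le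
  omega

/-- the vertex zero -/
lemma zero_nb {n : ℕ} {X : Finset ℕ} (h : 2 * (Icc 1 n \ X).card < ((Icc 7 n).filter Nat.Prime).card) :
    ∃ b ∈ X, R 0 b ∧ (P1 0 ↔ P1 b) := by
  classical
  by_contra hcon
  push Not at hcon
  have hsub : (Icc 7 n).filter Nat.Prime ⊆ Icc 1 n \ X := by
    intro p hp
    rw [mem_filter, mem_Icc] at hp
    obtain ⟨⟨h7, hpn⟩, hpp⟩ := hp
    have h2 : p % 2 = 1 := Nat.odd_iff.1 (hpp.odd_of_ne_two (by omega))
    have h3 : ¬ 3 ∣ p := by
      intro h3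
      have := (Nat.prime_dvd_prime_iff_eq Nat.prime_three hpp).1 h3
      omega
    rw [mem_sdiff, mem_Icc]
    refine ⟨by omega, fun hX => ?_⟩
    have hR : R 0 p := by
      have e2 : Nat.dist 0 p = p := by
        simp only [Nat.dist]
        omega
      refine ⟨?_, ?_⟩
      · rw [zero_add]
        exact ⟨hpp, Nat.odd_iff.2 h2⟩
      · rw [e2]
        exact ⟨hpp, Nat.odd_iff.2 h2⟩
    have := hcon p hX hR
    unfold P1 at this
    omega
  have := card_le_card hsub
  omega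

open Classical in
lemma touchG {M : ℕ → ℕ → Prop} {K n : ℕ} {X : Finset ℕ} {δ : ℝ} (hn3 : 3 ^ K ≤ n) (hMA : ∀ a b, M a b → MA K n a b)
    (a : ℕ) (h1 : δ * LL n ≤ (((Icc 1 n).filter (fun b => M a b)).card : ℝ))
    (h2 : ((Icc 1 n \ X).card : ℝ) + 3 < δ * LL n) :
    ∃ b ∈ X, M a b ∧ (P1 a ↔ P1 b) ∧ (a + b) % 2 = 1 := by
  by_contra hcon
  push Not at hcon
  have hsub : (Icc 1 n).filter (fun b => M a b) ⊆ (Icc 1 n \ X) ∪ ex3 a := by
    intro b hb
    rw [mem_filter] at hb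
    rw [mem_union, mem_sdiff]
    by_cases hX : b ∈ X
    · right
      by_contra hE
      obtain ⟨h3, h4⟩ := cls_ma hn3 (hMA _ _ hb.2) hE
      exact hcon b hX hb.2 h3 (Nat.odd_iff.1 h4)
    · exact Or.inl ⟨hb.1, hX⟩
  have h3 := (card_le_card hsub).trans (card_union_le _ _)
  have h4 := ex3_card a
  have h5 : ((Icc 1 n).filter (fun b => M a b)).card ≤ (Icc 1 n \ X).card + 3 := by omega
  have h6 : (((Icc 1 n).filter (fun b => M a b)).card : ℝ) ≤ (Icc 1 n \ X).card + 3 := by exact_mod_cast h5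
  linarith

open Classical in
/-- every vertex has many neighbours -/
def S_ALLG (M : ℕ → ℕ → ℕ → ℕ → Prop) : Prop := ∃ K0 : ℕ, ∃ δ : ℝ, 0 < δ ∧ ∃ n0 : ℕ, ∀ n : ℕ, n0 ≤ n → ∀ K : ℕ, K0 ≤ K →
  ∀ a ∈ Icc 1 n, δ * LL n ≤ (((Icc 1 n).filter (fun b => M K n a b)).card : ℝ)

/-- the graph on the halves has a diameter of at most 21 -/
theorem dia_of (hm : S_mom) (hc : S_codeg) (hw : S_wsum) (hg : S_gold) (ht : S_twin) (hp : S_peel)
    (M : ℕ → ℕ → ℕ → ℕ → Prop) (hsy : ∀ K n a b, M K n a b → M K n b a) (hRM : ∀ K n a b, R a b → M K n a b)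
    (hMA : ∀ K n a b, M K n a b → MA K n a b) (hL : S_LINKG M) (hA : S_ALLG M) :
    ∃ K0 : ℕ, ∀ K : ℕ, K0 ≤ K → ∃ N : ℕ, ∀ n : ℕ, N ≤ n →
      (∀ u ∈ Icc 0 n, ∀ v ∈ Icc 0 n, Rc (M K n) (Icc 0 n) 21 u v) ∧
      (∀ u ∈ Icc 1 n, ∀ v ∈ Icc 1 n, Rc (M K n) (Icc 1 n) 21 u v) := by
  classical
  obtain ⟨c, hc0, hmain⟩ := grow_main hm hc hw hg ht hp
  obtain ⟨Ka, δ, hδ, na, hall⟩ := hA
  obtain ⟨Kl, hlink⟩ := hL (c ^ 2 / 2) (by positivity)
  obtain ⟨nm, hmn⟩ := hmain 3
  obtain ⟨nb, hnb, hLL⟩ := LL_large (8 / δ)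
  obtain ⟨np, hnp⟩ := many_primes
  have hlogt : Filter.Tendsto (fun n : ℕ => Real.log n) Filter.atTop Filter.atTop :=
    Real.tendsto_log_atTop.comp tendsto_natCast_atTop_atTop
  obtain ⟨ng, hng⟩ := Filter.eventually_atTop.1 (hlogt.eventually_ge_atTop (max 3 (2 / δ)))
  refine ⟨max Ka Kl, fun K hK => ?_⟩
  have hKa : Ka ≤ K := (le_max_left _ _).trans hK
  have hKl : Kl ≤ K := (le_max_right _ _).trans hK
  obtain ⟨nl, hln⟩ := hlink K hKl
  obtain ⟨M3, hM3⟩ : ∃ M3, M3 = 3 ^ K := ⟨_, rfl⟩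
  refine ⟨na + nl + nm + nb + ng + np + M3 + 5, fun n hn => ?_⟩
  have hn5 : 5 ≤ n := by omega
  have hnr : (5 : ℝ) ≤ n := by exact_mod_cast hn5
  obtain ⟨X, hX, hXc, hXg⟩ := hmn n (by omega)
  have b3 := (hLL n (by omega)).1
  have g1 := hng n (by omega)
  have g2 : 3 ≤ Real.log n := (le_max_left _ _).trans g1
  have g3 : 2 / δ ≤ Real.log n := (le_max_right _ _).trans g1
  have hlog : 0 < Real.log n := by linarith
  have hLL0 : 0 < LL n := by unfold LL; positivity
  have hlk := hln n (by omega)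
  have hpr := hnp n (by omega)
  have hall' := hall n (by omega) K hKa
  have hn3 : 3 ^ K ≤ n := by
    rw [← hM3]
    omega
  have hex : ((Icc 1 n \ X).card : ℝ) + 3 < δ * LL n := by
    have e1 : (n : ℝ) / Real.log n ^ 3 = LL n / Real.log n := by
      unfold LL
      rw [div_div, ← pow_succ]
    have e2 : LL n / Real.log n ≤ δ / 2 * LL n := by
      rw [div_le_iff₀ hlog]
      rw [div_le_iff₀ hδ] at g3
      nlinarith
    have e3 : 4 ≤ δ / 2 * LL n := by
      rw [div_le_iff₀ hδ] at b3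
      linarith
    rw [e1] at hXc
    linarith
  have hfew := few_compl (by omega) g2 hXc hpr
  have hcr := crossing hfew
  have hz := zero_nb hfew
  have hadj : ∀ a ∈ Icc 1 n, ∃ b ∈ X, M K n a b ∧ (P1 a ↔ P1 b) ∧ (a + b) % 2 = 1 := fun a ha =>
    touchG hn3 (hMA K n) a (hall' a ha) hex
  have hadj0 : ∀ a ∈ Icc 0 n, ∃ b ∈ X, M K n a b ∧ (P1 a ↔ P1 b) ∧ (a + b) % 2 = 1 := by
    intro a ha
    rcases Nat.eq_zero_or_pos a with h0 | h0
    · obtain ⟨b, hb, hR, hp1⟩ := hz
      rw [h0]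
      exact ⟨b, hb, hRM _ _ _ _ hR, hp1, R_odd hR⟩
    · exact hadj a (mem_Icc.2 ⟨h0, (mem_Icc.1 ha).2⟩)
  have D1 : Das (M K n) (Icc 1 n) n c (c ^ 2 / 2) X := {
    hn := by omega
    hX := hX
    hV := Subset.rfl
    c0 := hc0
    εc := by
      have : 0 < c ^ 2 := by positivity
      linarith
    sy := hsy K n
    RM := hRM K n
    gr := hXg
    lk := hlk
    adj := hadj
    cr := hcr }
  have D0 : Das (M K n) (Icc 0 n) n c (c ^ 2 / 2) X := {
    hn := by omega
    hX := hX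
    hV := by
      intro a ha
      rw [mem_Icc] at ha ⊢
      omega
    c0 := hc0
    εc := by
      have : 0 < c ^ 2 := by positivity
      linarith
    sy := hsy K n
    RM := hRM K n
    gr := hXg
    lk := hlk
    adj := hadj0
    cr := hcr }
  exact ⟨fun u hu v hv => D0.dia hu hv, fun u hu v hv => D1.dia hu hv⟩

end Pool.Agent.P8H49.GM
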