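import Pool.Agent.P8H49.GM.Fin1

set_option autoImplicit false

/-!
# Project GM: transfer to graphs, and the number of the prime factors
-/

namespace Pool.Agent.P8H49.GM

open Finset
open Pool.Agent.R521.GG (R LL)

lemma prod_pow_list (K : ℕ) (l : List ℕ) : (l.map (fun p => p ^ K)).prod = l.prod ^ K := by
  induction l with
  | nil => simp
  | cons a l ih => rw [List.map_cons, List.prod_cons, List.prod_cons, mul_pow, ih]

lemma len_le {K n m : ℕ} (hK : 1 ≤ K) (hn : 2 ^ K ≤ n) (hm : m < 2 * n) (h : Rog K n m) : m.primeFactorsList.length ≤ K := by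
  by_contra hcon
  push Not at hcon
  have hm0 : m ≠ 0 := by have := h.1; omega
  have h1 : (n + 1) ^ m.primeFactorsList.length ≤ m ^ K := by
    have e : m ^ K = (m.primeFactorsList.map (fun p => p ^ K)).prod := by
      rw [prod_pow_list, Nat.prod_primeFactorsList hm0]
    rw [e]
    have := List.pow_card_le_prod (m.primeFactorsList.map (fun p => p ^ K)) (n + 1) (by
      intro x hx
      rw [List.mem_map] at hx
      obtain ⟨p, hp, rfl⟩ := hx
      have := h.2 p (Nat.prime_of_mem_primeFactorsList hp) (Nat.dvd_of_mem_primeFactorsList hp)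
      omega)
    rwa [List.length_map] at this
  have h2 : (n + 1) ^ (K + 1) ≤ (n + 1) ^ m.primeFactorsList.length := Nat.pow_le_pow_right (by omega) hcon
  have h3 : m ^ K < (2 * n) ^ K := Nat.pow_lt_pow_left hm (by omega)
  have h4 : (2 * n) ^ K ≤ (n + 1) ^ (K + 1) := by
    rw [mul_pow, pow_succ, mul_comm]
    exact Nat.mul_le_mul (Nat.pow_le_pow_left (by omega) K) (by omega)
  omega

lemma walk_of {W : Type} {G : SimpleGraph W} (φ : ℕ → W) (V : Finset ℕ) (M : ℕ → ℕ → Prop)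
    (hadj : ∀ a ∈ V, ∀ b ∈ V, M a b → G.Adj (φ a) (φ b)) : ∀ (k : ℕ) (u v : ℕ), u ∈ V → Wk M V k u v →
    ∃ w : G.Walk (φ u) (φ v), w.length = k := by
  intro k
  induction k with
  | zero =>
    intro u v _ h
    have e : u = v := h
    subst e
    exact ⟨.nil, rfl⟩
  | succ k ih =>
    intro u v hu h
    obtain ⟨x, hx, hux, hxv⟩ := h
    obtain ⟨w, hw⟩ := ih x v hx hxv
    exact ⟨.cons (hadj u hu x hx hux) w, by rw [SimpleGraph.Walk.length_cons, hw]⟩

lemma transfer {W : Type} {G : SimpleGraph W} (φ : ℕ → W) (V : Finset ℕ) (M : ℕ → ℕ → Prop)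
    (hadj : ∀ a ∈ V, ∀ b ∈ V, M a b → G.Adj (φ a) (φ b)) (hsurj : ∀ w : W, ∃ a ∈ V, φ a = w) (D : ℕ)
    (hne : Nonempty W) (h : ∀ u ∈ V, ∀ v ∈ V, Rc M V D u v) : G.Connected ∧ ∀ u v, G.dist u v ≤ D := by
  have key : ∀ x y : W, ∃ w : G.Walk x y, w.length ≤ D := by
    intro x y
    obtain ⟨a, ha, rfl⟩ := hsurj x
    obtain ⟨b, hb, rfl⟩ := hsurj y
    obtain ⟨k, hk, hw⟩ := h a ha b hb
    obtain ⟨w, hw'⟩ := walk_of φ V M hadj k a b ha hw
    exact ⟨w, by omega⟩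
  refine ⟨?_, fun u v => ?_⟩
  · haveI := hne
    exact ⟨fun x y => ⟨(key x y).choose⟩⟩
  · obtain ⟨w, hw⟩ := key u v
    exact (SimpleGraph.dist_le w).trans hw

lemma dist_two (a b : ℕ) : Nat.dist (2 * a) (2 * b) / 2 = Nat.dist a b := by
  simp only [Nat.dist]
  omega

lemma sum_two (a b : ℕ) : (2 * a + 2 * b) / 2 = a + b := by omega

lemma MS_symm {K n a b : ℕ} (h : MS K n a b) : MS K n b a := by
  obtain ⟨h1, h2, h3⟩ := h
  refine ⟨h1.symm, ?_, ?_⟩
  · rw [add_comm b a]; exact h2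
  · rw [Nat.dist_comm b a]; exact h3

lemma MD_symm {K n a b : ℕ} (h : MD K n a b) : MD K n b a := by
  obtain ⟨h1, h2, h3⟩ := h
  refine ⟨h1.symm, ?_, ?_⟩
  · rw [Nat.dist_comm b a]; exact h2
  · rw [add_comm b a]; exact h3

lemma R_ne {a b : ℕ} (h : R a b) : a ≠ b := by
  rintro rfl
  have := h.2.1
  rw [Nat.dist_self] at this
  exact Nat.not_prime_zero this

lemma MS_R {K n a b : ℕ} (h : R a b) : MS K n a b := ⟨R_ne h, h.1, Or.inl h.2⟩
lemma MD_R {K n a b : ℕ} (h : R a b) : MD K n a b := ⟨R_ne h, h.2, Or.inl h.1⟩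
lemma MS_MA {K n a b : ℕ} (h : MS K n a b) : MA K n a b := ⟨h.1, Or.inl ⟨h.2.1, h.2.2⟩⟩
lemma MD_MA {K n a b : ℕ} (h : MD K n a b) : MA K n a b := by
  obtain ⟨h1, h2, h3 | h3⟩ := h
  · exact ⟨h1, Or.inl ⟨h3, Or.inl h2⟩⟩
  · exact ⟨h1, Or.inr ⟨h2, h3⟩⟩

end Pool.Agent.P8H49.GM
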