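import Pool.Agent.P8H49.GM.Asm1

set_option autoImplicit false

/-!
# Project GM: the balls of radius two around good vertices, inside the classes
-/

namespace Pool.Agent.P8H49.GM

open Finset
open Pool.Agent.R521.GG (R dg cd gg wt LL S_mom S_codeg S_wsum S_gold S_twin S_peel few_edges LL_large N2 low_all growth good_nb
  wt_one_le)

open Classical in
/-- the members of `X` in the class of `z` -/
noncomputable def XC (X : Finset ℕ) (z : ℕ) : Finset ℕ := X.filter (fun a => P1 z ↔ P1 a)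

lemma mem_XC {X : Finset ℕ} {z a : ℕ} : a ∈ XC X z ↔ a ∈ X ∧ (P1 z ↔ P1 a) := by
  classical
  unfold XC
  simp only [mem_filter]

lemma XC_sub (X : Finset ℕ) (z : ℕ) : XC X z ⊆ X := fun _ h => (mem_XC.1 h).1

lemma XC_congr {X : Finset ℕ} {z z' : ℕ} (h : P1 z ↔ P1 z') : XC X z = XC X z' := by
  ext a
  rw [mem_XC, mem_XC, h]

/-- the growth of the balls -/
theorem grow_main (hm : S_mom) (hc : S_codeg) (hw : S_wsum) (hg : S_gold) (ht : S_twin) (hp : S_peel) :
    ∃ c : ℝ, 0 < c ∧ ∀ U : ℕ, ∃ n₀ : ℕ, ∀ n : ℕ, n₀ ≤ n → ∃ X ⊆ Icc 1 n,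
      ((Icc 1 n \ X).card : ℝ) ≤ n / Real.log n ^ U ∧
      ∀ x ∈ X, ∃ b ∈ XC X x, R x b ∧ c * n ≤ ((N2 (XC X x) b).card : ℝ) := by
  classical
  obtain ⟨δ, hδ, hlow⟩ := low_all hg ht
  obtain ⟨C₄, hC₄, n₄, h4⟩ := hw
  obtain ⟨c, hc0, n₅, h5⟩ := growth hm hc (δ / 4) (C₄ / (δ / 4)) (by positivity) (by positivity)
  obtain ⟨η, hη, n₆, h6⟩ := few_edges hm hc (δ / 4) (by positivity)
  refine ⟨c, hc0, fun U => ?_⟩
  obtain ⟨n₇, h7⟩ := hlow (U + 1)
  obtain ⟨n₈, hn₈, h8⟩ := LL_large (max 1 (12 / δ))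
  -- log n is large
  have hlogt : Filter.Tendsto (fun n : ℕ => Real.log n) Filter.atTop Filter.atTop :=
    Real.tendsto_log_atTop.comp tendsto_natCast_atTop_atTop
  obtain ⟨n₉, h9⟩ := Filter.eventually_atTop.1 (hlogt.eventually_ge_atTop (4 + 8 / η))
  obtain ⟨m₁, hm₁⟩ := exists_nat_ge (4 / η)
  refine ⟨n₄ + n₅ + n₆ + n₇ + n₈ + n₉ + m₁ + 3, fun n hn => ?_⟩
  have hnr : (0 : ℝ) < n := by exact_mod_cast (by omega : 0 < n)
  have hlog := h9 n (by omega)
  have hη8 : 0 < 8 / η := by positivity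
  have hlog4 : 4 ≤ Real.log n := by linarith
  have hlog0 : 0 < Real.log n := by linarith
  have hlogη : 8 / η ≤ Real.log n := by linarith
  obtain ⟨hLL0, _⟩ := h8 n (by omega)
  have hLL1 : 1 ≤ LL n := (le_max_left _ _).trans hLL0
  have hLLδ : 12 / δ ≤ LL n := (le_max_right _ _).trans hLL0
  have hL0 : 0 < LL n := by linarith
  obtain ⟨E, hE⟩ : ∃ E, E = (Icc 1 n).filter (fun a => (dg (Icc 1 n) a : ℝ) < δ * wt a * LL n) := ⟨_, rfl⟩
  have hEcard := h7 n (by omega)
  rw [← hE] at hEcard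
  have hpw : (n : ℝ) / Real.log n ^ (U + 1) ≤ n / Real.log n := by
    apply div_le_div_of_nonneg_left hnr.le hlog0
    calc Real.log n = Real.log n ^ 1 := (pow_one _).symm
      _ ≤ Real.log n ^ (U + 1) := pow_le_pow_right₀ (by linarith) (by omega)
  have hE1 : (E.card : ℝ) ≤ η * n / 4 := by
    refine hEcard.trans ?_
    have h10 : (n : ℝ) / Real.log n ≤ η * n / 8 := by
      rw [div_le_iff₀ hlog0]
      calc (n : ℝ) = η * n / 8 * (8 / η) := by field_simp
        _ ≤ η * n / 8 * Real.log n := mul_le_mul_of_nonneg_left hlogη (by positivity)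
    linarith
  obtain ⟨X, hX, hXc, hXd⟩ := hp (Icc 1 n) E wt (δ / 2 * LL n) (by positivity) (by rw [hE]; exact filter_subset _ _)
    (fun a ha => wt_one_le (mem_Icc.1 ha).1) (by
      intro a ha haE
      rw [hE, mem_filter, not_and, not_lt] at haE
      have := haE ha
      calc 2 * (δ / 2 * LL n) * wt a = δ * wt a * LL n := by ring
        _ ≤ _ := this) (by
      intro Y hY hYc
      have hne : Y.Nonempty := by rw [← card_pos]; omega
      have hcY : (Y.card : ℝ) ≤ η * n := by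
        rw [hYc]
        push_cast
        have : 1 ≤ η * n / 4 := by
          have h11 : (m₁ : ℝ) ≤ n := by exact_mod_cast (by omega : m₁ ≤ n)
          have h12 : 4 / η ≤ n := hm₁.trans h11
          rw [div_le_iff₀ hη] at h12
          linarith
        linarith
      have := h6 n (by omega) Y hY hne hcY
      calc ∑ a ∈ Y, (dg Y a : ℝ) < δ / 4 * LL n * Y.card := this
        _ = _ := by ring)
  have hdX : ∀ a ∈ X, δ / 2 * LL n * wt a ≤ dg X a := fun a ha => (hXd a ha).2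
  -- inside the classes
  have hdC : ∀ z : ℕ, ∀ a ∈ XC X z, δ / 4 * LL n * wt a ≤ dg (XC X z) a := by
    intro z a ha
    rw [mem_XC] at ha
    have h10 := dg_class (K := 0) (n := n) (a := a) (by omega) X (XC X z) (fun b hb _ hp _ => mem_XC.2 ⟨hb, ha.2.trans hp⟩)
    have h11 := hdX a ha.1
    have hw1 := wt_one_le (mem_Icc.1 (hX ha.1)).1
    have h12 : 3 ≤ δ / 4 * LL n * wt a := by
      rw [div_le_iff₀ hδ] at hLLδ
      have h13 : 3 ≤ δ / 4 * LL n := by linarith
      have h14 : δ / 4 * LL n * 1 ≤ δ / 4 * LL n * wt a := mul_le_mul_of_nonneg_left hw1 (by positivity)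
      linarith
    linarith
  have hdC' : ∀ z : ℕ, ∀ a ∈ XC X z, δ / 4 * LL n ≤ dg (XC X z) a := by
    intro z a ha
    refine le_trans ?_ (hdC z a ha)
    have := wt_one_le (mem_Icc.1 (hX (XC_sub _ _ ha))).1
    have h0 : 0 < δ / 4 * LL n := by positivity
    nlinarith
  refine ⟨X, hX, ?_, fun x hx => ?_⟩
  · have h10 : ((Icc 1 n \ X).card : ℝ) ≤ 2 * E.card := by exact_mod_cast hXc
    have h11 : 4 * ((n : ℝ) / Real.log n ^ (U + 1)) ≤ n / Real.log n ^ U := by
      rw [pow_succ, ← div_div]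
      have h12 : 0 ≤ (n : ℝ) / Real.log n ^ U := by positivity
      rw [mul_div_assoc', div_le_iff₀ hlog0]
      nlinarith
    linarith
  · have hxC : x ∈ XC X x := mem_XC.2 ⟨hx, Iff.rfl⟩
    obtain ⟨b, hb, hR, hT⟩ := good_nb C₄ (δ / 4) (LL n) n hC₄ (by positivity) hL0 (XC X x) ((XC_sub _ _).trans hX) x hxC
      (h4 n (by omega) x (hX hx)) (hdC x x hxC)
    exact ⟨b, hb, hR, h5 n (by omega) (XC X x) ((XC_sub _ _).trans hX) (hdC' x) b hb hT⟩

end Pool.Agent.P8H49.GM
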