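import Pool.Agent.P8H49.GM.Stm

set_option autoImplicit false

/-!
# Project GM: almost all pairs of vertices of the same class have a common neighbour
-/

namespace Pool.Agent.P8H49.GM

open Finset
open Pool.Agent.H373R2.T7 (pz Vz mem_pz)

lemma dvd_WW {w p : ℕ} (hp : p ∈ pz w) : p ∣ WW w := Finset.dvd_prod_of_mem _ hp

lemma WW_pos (w : ℕ) : 0 < WW w := Nat.pos_of_ne_zero (prod_ne_zero_iff.2 fun p hp => (mem_pz.1 hp).2.ne_zero)

lemma modEq_int {p W a b : ℕ} (hp : p ∣ W) (h : a ≡ b [MOD W]) : (p : ℤ) ∣ (a : ℤ) - b := by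
  have h1 : a ≡ b [MOD p] := h.of_dvd hp
  have h2 := (Nat.modEq_iff_dvd.1 h1.symm)
  exact h2

/-- one of the two edges -/
lemma rog_of {n K y w : ℕ} {t : ℤ} {m : ℕ} (hK : n < (y + 1) ^ K) (hw : 3 ≤ w) (ht : (m : ℤ) = |t|) (h1 : m ≠ 1)
    (hs : ∀ p ∈ pz w, ¬ (p : ℤ) ∣ t) (hl : ∀ p ∈ pz y, w < p → ¬ (p : ℤ) ∣ t) : Rog K n m := by
  have hd : ∀ p : ℕ, p ∣ m → (p : ℤ) ∣ t := by
    intro p hp
    have : (p : ℤ) ∣ (m : ℤ) := by exact_mod_cast hp
    rw [ht] at this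
    exact (dvd_abs _ _).1 this
  constructor
  · have h0 : m ≠ 0 := by
      rintro rfl
      exact hs 2 (mem_pz.2 ⟨by omega, Nat.prime_two⟩) (hd 2 (by simp))
    omega
  · intro p hp hpm
    by_contra hcon
    push Not at hcon
    have hpy : p ≤ y := by
      by_contra h
      push Not at h
      have : (y + 1) ^ K ≤ p ^ K := Nat.pow_le_pow_left h K
      omega
    rcases Nat.lt_or_ge w p with h | h
    · exact hl p (mem_pz.2 ⟨hpy, hp⟩) h (hd p hpm)
    · exact hs p (mem_pz.2 ⟨h, hp⟩) (hd p hpm)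

lemma adj_of {n K y w α β h a x : ℕ} (hK : n < (y + 1) ^ K) (hw : 3 ≤ w)
    (hβ : ∀ p ∈ pz w, ¬ (p : ℤ) ∣ (α : ℤ) + β ∧ ¬ (p : ℤ) ∣ (α : ℤ) - β ∧ ¬ (p : ℤ) ∣ ((α + h : ℕ) : ℤ) + β ∧
      ¬ (p : ℤ) ∣ ((α + h : ℕ) : ℤ) - β)
    (ha : a ≡ α [MOD WW w]) (hx : x ≡ α + β [MOD WW w]) (hxp : x.Prime) (hxh : (x + h).Prime) (hr : Rgh y w a h x)
    (hax : a < x) (hxn : x ≤ n + a) (h1 : (2 * (a : ℤ) - x).natAbs ≠ 1) (h2 : (2 * (a : ℤ) + h - x).natAbs ≠ 1) :
    ∃ b ∈ Icc 1 n, MA K n a b ∧ MA K n (a + h) b := by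
  obtain ⟨b, rfl⟩ : ∃ b, x = a + b := ⟨x - a, by omega⟩
  have hb1 : 1 ≤ b := by omega
  have hbn : b ≤ n := by omega
  -- the four congruences
  have c1 : ∀ p ∈ pz w, ¬ (p : ℤ) ∣ ((a + b : ℕ) : ℤ) := by
    intro p hp hd
    have e1 := modEq_int (dvd_WW hp) hx
    apply (hβ p hp).1
    have := dvd_sub hd e1
    push_cast at this ⊢
    ring_nf at this ⊢
    exact this
  have c2 : ∀ p ∈ pz w, ¬ (p : ℤ) ∣ 2 * (a : ℤ) - ((a + b : ℕ) : ℤ) := by
    intro p hp hd
    have e1 := modEq_int (dvd_WW hp) hx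
    have e2 := modEq_int (dvd_WW hp) ha
    apply (hβ p hp).2.1
    have := dvd_sub (dvd_add hd e1) (Dvd.dvd.mul_left e2 2)
    push_cast at this ⊢
    ring_nf at this ⊢
    exact this
  have c3 : ∀ p ∈ pz w, ¬ (p : ℤ) ∣ ((a + b + h : ℕ) : ℤ) := by
    intro p hp hd
    have e1 := modEq_int (dvd_WW hp) hx
    apply (hβ p hp).2.2.1
    have := dvd_sub hd e1
    push_cast at this ⊢
    ring_nf at this ⊢
    exact this
  have c4 : ∀ p ∈ pz w, ¬ (p : ℤ) ∣ 2 * (a : ℤ) + h - ((a + b : ℕ) : ℤ) := by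
    intro p hp hd
    have e1 := modEq_int (dvd_WW hp) hx
    have e2 := modEq_int (dvd_WW hp) ha
    apply (hβ p hp).2.2.2
    have := dvd_sub (dvd_add hd e1) (Dvd.dvd.mul_left e2 2)
    push_cast at this ⊢
    ring_nf at this ⊢
    exact this
  have two : 2 ∈ pz w := mem_pz.2 ⟨by omega, Nat.prime_two⟩
  have odd1 : Odd (a + b) := by
    have := c1 2 two
    rw [← Nat.not_even_iff_odd]
    intro h
    apply this
    obtain ⟨r, hr⟩ := h
    exact ⟨r, by push_cast [hr]; ring⟩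
  have odd2 : Odd (a + h + b) := by
    have := c3 2 two
    rw [← Nat.not_even_iff_odd]
    intro h'
    apply this
    obtain ⟨r, hr⟩ := h'
    exact ⟨r, by
      have : ((a + h + b : ℕ) : ℤ) = ((r + r : ℕ) : ℤ) := by rw [hr]
      push_cast at this ⊢
      linarith⟩
  have d1 : ((Nat.dist a b : ℕ) : ℤ) = |2 * (a : ℤ) - ((a + b : ℕ) : ℤ)| := by
    have : 2 * (a : ℤ) - ((a + b : ℕ) : ℤ) = a - b := by push_cast; ring
    rw [this]
    simp only [Nat.dist]
    rcases le_total a b with h | h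
    · rw [abs_of_nonpos (by linarith [(by exact_mod_cast h : (a : ℤ) ≤ b)])]
      omega
    · rw [abs_of_nonneg (by linarith [(by exact_mod_cast h : (b : ℤ) ≤ a)])]
      omega
  have d2 : ((Nat.dist (a + h) b : ℕ) : ℤ) = |2 * (a : ℤ) + h - ((a + b : ℕ) : ℤ)| := by
    have : 2 * (a : ℤ) + h - ((a + b : ℕ) : ℤ) = ((a + h : ℕ) : ℤ) - b := by push_cast; ring
    rw [this]
    simp only [Nat.dist]
    rcases le_total (a + h) b with h' | h'
    · rw [abs_of_nonpos (by linarith [(by exact_mod_cast h' : ((a + h : ℕ) : ℤ) ≤ b)])]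
      omega
    · rw [abs_of_nonneg (by linarith [(by exact_mod_cast h' : (b : ℤ) ≤ ((a + h : ℕ) : ℤ))])]
      omega
  have g1 : Rog K n (Nat.dist a b) := rog_of hK hw d1 (by
    intro h
    apply h1
    rw [h] at d1
    rw [← Int.natAbs_abs, ← d1]
    rfl) c2 (fun p hp hwp => (hr p hp hwp).1)
  have g2 : Rog K n (Nat.dist (a + h) b) := rog_of hK hw d2 (by
    intro h'
    apply h2
    rw [h'] at d2
    rw [← Int.natAbs_abs, ← d2]
    rfl) c4 (fun p hp hwp => (hr p hp hwp).2)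
  have ne1 : a ≠ b := by
    rintro rfl
    have := g1.1
    rw [Nat.dist_self] at this
    omega
  have ne2 : a + h ≠ b := by
    rintro rfl
    have := g2.1
    rw [Nat.dist_self] at this
    omega
  refine ⟨b, mem_Icc.2 ⟨hb1, hbn⟩, ⟨ne1, Or.inl ⟨⟨hxp, odd1⟩, Or.inr g1⟩⟩, ⟨ne2, Or.inl ⟨⟨?_, odd2⟩, Or.inr g2⟩⟩⟩
  have : a + h + b = a + b + h := by ring
  rw [this]
  exact hxh

open Classical in
/-- among five elements one is not exceptional -/
lemma choose_x {y w a h : ℕ} (P : Finset ℕ) (hN : 5 ≤ (P.filter (fun x => Rgh y w a h x)).card) :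
    ∃ x ∈ P, Rgh y w a h x ∧ (2 * (a : ℤ) - x).natAbs ≠ 1 ∧ (2 * (a : ℤ) + h - x).natAbs ≠ 1 := by
  by_contra hcon
  push Not at hcon
  have hsub : P.filter (fun x => Rgh y w a h x) ⊆ ({2 * a - 1, 2 * a + 1, 2 * a + h - 1, 2 * a + h + 1} : Finset ℕ) := by
    intro x hx
    rw [mem_filter] at hx
    have h1 := hcon x hx.1 hx.2
    simp only [mem_insert, mem_singleton]
    by_cases h2 : (2 * (a : ℤ) - x).natAbs = 1
    · omega
    · have h3 := h1 h2
      omega
  have h4 := card_le_card hsub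
  have h5 : ({2 * a - 1, 2 * a + 1, 2 * a + h - 1, 2 * a + h + 1} : Finset ℕ).card ≤ 4 := card_le_four
  omega

lemma gw_one_le (w m : ℕ) : 1 ≤ gw w m := by
  unfold gw
  calc (1 : ℝ) = ∏ _p ∈ m.primeFactors.filter (fun p => w < p), (1 : ℝ) := by rw [prod_const_one]
    _ ≤ _ := by
      apply prod_le_prod (fun _ _ => zero_le_one)
      intro p _
      have : (0 : ℝ) ≤ 4 / (p : ℝ) := by positivity
      linarith

open Classical in
/-- few shifts have a large weight -/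
lemma gw_markov {C : ℝ} {w n : ℕ} (hw : 3 ≤ w)
    (h : ∀ r : ℕ, ∑ m ∈ (Icc 1 n).filter (fun m => m ≡ r [MOD WW w]), (gw w m ^ 6 - 1) ≤ C * (n / WW w) / w) :
    (((Icc 1 n).filter (fun h => ¬ gw w h ≤ 2)).card : ℝ) ≤ C * n / w := by
  have hW := WW_pos w
  have hWr : (0 : ℝ) < WW w := by exact_mod_cast hW
  have h0 : ∀ m, 0 ≤ gw w m ^ 6 - 1 := fun m => by
    have := one_le_pow₀ (gw_one_le w m) (n := 6)
    linarith
  calc (((Icc 1 n).filter (fun h => ¬ gw w h ≤ 2)).card : ℝ) = ∑ m ∈ (Icc 1 n).filter (fun h => ¬ gw w h ≤ 2), (1 : ℝ) := by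
        rw [sum_const, nsmul_eq_mul, mul_one]
    _ ≤ ∑ m ∈ (Icc 1 n).filter (fun h => ¬ gw w h ≤ 2), (gw w m ^ 6 - 1) := by
        apply sum_le_sum
        intro m hm
        have h2 := (mem_filter.1 hm).2
        push Not at h2
        have h3 : (2 : ℝ) ^ 6 ≤ gw w m ^ 6 := pow_le_pow_left₀ (by norm_num) h2.le 6
        norm_num at h3
        linarith
    _ ≤ ∑ m ∈ Icc 1 n, (gw w m ^ 6 - 1) := sum_le_sum_of_subset_of_nonneg (filter_subset _ _) (fun m _ _ => h0 m)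
    _ = ∑ r ∈ range (WW w), ∑ m ∈ (Icc 1 n).filter (fun m => m ≡ r [MOD WW w]), (gw w m ^ 6 - 1) := by
        have e := sum_fiberwise_of_maps_to (s := Icc 1 n) (t := range (WW w)) (g := fun m => m % WW w)
          (fun m _ => mem_range.2 (Nat.mod_lt m hW)) (fun m => gw w m ^ 6 - 1)
        rw [← e]
        apply sum_congr rfl
        intro r hr
        apply sum_congr _ (fun _ _ => rfl)
        apply filter_congr
        intro m _
        show m % WW w = r ↔ m % WW w = r % WW w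
        rw [Nat.mod_eq_of_lt (mem_range.1 hr)]
    _ ≤ ∑ r ∈ range (WW w), C * (n / WW w) / w := sum_le_sum fun r _ => h r
    _ = C * n / w := by
        rw [sum_const, card_range, nsmul_eq_mul]
        field_simp

lemma card_class (n A B W v : ℕ) (hW : 0 < W) (hAB : A ≤ B) (hB : B ≤ n) :
    (((Ioc A B).filter (fun a => a ≡ v [MOD W])).card : ℝ) ≤ n / W + 1 := by
  have hWr : (0 : ℝ) < W := by exact_mod_cast hW
  -- inject into the quotients
  have h1 : ((Ioc A B).filter (fun a => a ≡ v [MOD W])).card ≤ n / W + 1 := by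
    have : ((Ioc A B).filter (fun a => a ≡ v [MOD W])).card ≤ (range (n / W + 1)).card := by
      apply card_le_card_of_injOn (fun a => a / W)
      · intro a ha
        have := (mem_Ioc.1 (mem_filter.1 ha).1).2
        exact mem_coe.2 (mem_range.2 (Nat.lt_succ_of_le (Nat.div_le_div_right (by omega))))
      · intro a ha b hb hab
        have h1 := (mem_filter.1 ha).2
        have h2 := (mem_filter.1 hb).2
        have h3 : a % W = b % W := h1.trans h2.symm
        simp only at hab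
        rw [← Nat.div_add_mod a W, ← Nat.div_add_mod b W, hab, h3]
    rwa [card_range] at this
  have h2 : ((n / W : ℕ) : ℝ) ≤ (n : ℝ) / W := Nat.cast_div_le
  have h3 : (((Ioc A B).filter (fun a => a ≡ v [MOD W])).card : ℝ) ≤ ((n / W + 1 : ℕ) : ℝ) := by exact_mod_cast h1
  push_cast at h3
  linarith

end Pool.Agent.P8H49.GM
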