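import Pool.Agent.P8H49.GM.Link

set_option autoImplicit false

/-!
# Project GM: almost all pairs of vertices of the same class have a common neighbour, assembly
-/

namespace Pool.Agent.P8H49.GM

open Finset
open Pool.Agent.H373R2.T7 (pz Vz mem_pz Vz_pos)

lemma log_sq_sqrt (M : ℝ) : ∃ n₀ : ℕ, 3 ≤ n₀ ∧ ∀ n : ℕ, n₀ ≤ n → M * Real.log n ^ 2 ≤ √(n : ℝ) := by
  have h1 := isLittleO_log_rpow_rpow_atTop (s := (1 / 2 : ℝ)) (2 : ℝ) (by norm_num)
  have h1' := h1.bound (c := 1 / (|M| + 1)) (by positivity)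
  have h3 := (tendsto_natCast_atTop_atTop (R := ℝ)).eventually h1'
  obtain ⟨n₀, h0⟩ := Filter.eventually_atTop.1 h3
  refine ⟨n₀ + 3, by omega, fun n hn => ?_⟩
  have h4 := h0 n (by omega)
  have hn3 : (3 : ℝ) ≤ n := by exact_mod_cast (by omega : 3 ≤ n)
  have hl : 0 < Real.log n := Real.log_pos (by linarith)
  rw [Real.norm_of_nonneg (by positivity), Real.norm_of_nonneg (by positivity), ← Real.sqrt_eq_rpow,
    Real.rpow_two] at h4
  have h5 : (|M| + 1) * Real.log n ^ 2 ≤ √(n : ℝ) := by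
    rw [div_mul_eq_mul_div, one_mul, le_div_iff₀ (by positivity)] at h4
    linarith
  have h6 : M ≤ |M| + 1 := by linarith [le_abs_self M]
  nlinarith [mul_le_mul_of_nonneg_right h6 (sq_nonneg (Real.log n))]

open Classical in
/-- the exceptional first vertices for the difference `h` in a class and a window -/
noncomputable def Bd (K n W A B α h : ℕ) : Finset ℕ :=
  (Ioc A B).filter (fun a => a ≡ α [MOD W] ∧ a + h ≤ n ∧ SC a (a + h) ∧
    ¬ ∃ b ∈ Icc 1 n, MA K n a b ∧ MA K n (a + h) b)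

lemma mem_Bd {K n W A B α h a : ℕ} : a ∈ Bd K n W A B α h ↔ (A < a ∧ a ≤ B) ∧ a ≡ α [MOD W] ∧ a + h ≤ n ∧
    SC a (a + h) ∧ ¬ ∃ b ∈ Icc 1 n, MA K n a b ∧ MA K n (a + h) b := by
  classical
  unfold Bd
  simp only [mem_filter, mem_Ioc]

lemma SC_class {w a α h : ℕ} (hw : 3 ≤ w) (ha : a ≡ α [MOD WW w]) (h1 : SC a (a + h)) : SC α (α + h) := by
  have d2 : 2 ∣ WW w := dvd_WW (mem_pz.2 ⟨by omega, Nat.prime_two⟩)
  have d3 : 3 ∣ WW w := dvd_WW (mem_pz.2 ⟨hw, Nat.prime_three⟩)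
  have e2 : a % 2 = α % 2 := ha.of_dvd d2
  have e3 : a % 3 = α % 3 := ha.of_dvd d3
  unfold SC at *
  omega

/-- reduction to the classes and windows -/
lemma bad_split (K n W : ℕ) (hW : 0 < W) (S : Finset (ℕ × ℕ)) (hS : ∀ q ∈ S, q.1 ∈ Icc 1 n ∧ q.2 ∈ Icc 1 n ∧ q.1 < q.2 ∧
    SC q.1 q.2 ∧ ¬ ∃ b ∈ Icc 1 n, MA K n q.1 b ∧ MA K n q.2 b) :
    S.card ≤ ∑ α ∈ range W, ∑ h ∈ Icc 1 n, (Bd K n W 0 (n / 2) α h).card +
      ∑ α ∈ range W, ∑ h ∈ Icc 1 n, (Bd K n W (n / 2) n α h).card := by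
  classical
  have hsub : S ⊆ (range W ×ˢ Icc 1 n).biUnion (fun c => (Bd K n W 0 (n / 2) c.1 c.2 ∪ Bd K n W (n / 2) n c.1 c.2).image
      (fun a => (a, a + c.2))) := by
    intro q hq
    obtain ⟨h1, h2, h3, h4, h5⟩ := hS q hq
    rw [mem_Icc] at h1 h2
    rw [mem_biUnion]
    have e : q.1 + (q.2 - q.1) = q.2 := by omega
    refine ⟨(q.1 % W, q.2 - q.1), mem_product.2 ⟨mem_range.2 (Nat.mod_lt _ hW), mem_Icc.2 ⟨by
      show 1 ≤ q.2 - q.1
      omega, by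
      show q.2 - q.1 ≤ n
      omega⟩⟩, ?_⟩
    rw [mem_image]
    refine ⟨q.1, ?_, ?_⟩
    · rw [mem_union, mem_Bd, mem_Bd]
      simp only [e]
      have h6 : q.1 ≡ q.1 % W [MOD W] := (Nat.mod_modEq _ _).symm
      rcases Nat.lt_or_ge (n / 2) q.1 with h | h
      · exact Or.inr ⟨⟨h, h1.2⟩, h6, h2.2, h4, h5⟩
      · exact Or.inl ⟨⟨by omega, h⟩, h6, h2.2, h4, h5⟩
    · simp only [e]
  refine (card_le_card hsub).trans (card_biUnion_le.trans ?_)
  rw [sum_product, ← sum_add_distrib]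
  apply sum_le_sum
  intro α _
  rw [← sum_add_distrib]
  apply sum_le_sum
  intro h _
  exact card_image_le.trans (card_union_le _ _)

end Pool.Agent.P8H49.GM
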