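import Pool.Agent.P8H49.GM.Link2

set_option autoImplicit false

/-!
# Project GM: almost all pairs of vertices of the same class have a common neighbour, assembly
-/

namespace Pool.Agent.P8H49.GM

open Finset
open Pool.Agent.H373R2.T7 (pz Vz mem_pz Vz_pos)

open Classical in
/-- a good difference -/
lemma good_h {K n y w α h A B : ℕ} {ε Q C : ℝ} (hε : 0 < ε) (hw3 : 3 ≤ w)
    (hK2 : 2 ≤ K) (hyK : y ^ K ≤ n) (hKy : n < (y + 1) ^ K) (hn1 : 1 ≤ n)
    (hV : ∀ P : Finset ℕ, P ⊆ Icc 1 (2 * n) → P.Nonempty → (((Ioc A B).filter (fun a => a ≡ α [MOD WW w] ∧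
      ((P.filter (fun x => Rgh y w a h x)).card : ℝ) ≤ P.card * Pi2 w y h / 2)).card : ℝ) ≤
      n / WW w * (ε / 16 + 24 * SG w h P / (P.card : ℝ) ^ 2 + 72 / (P.card * Pi2 w y h)))
    (hS : ∀ ξ, Q ≤ ((PP (WW w) ξ B (B + n / 2) h).card : ℝ) →
       SG w h (PP (WW w) ξ B (B + n / 2) h) ≤ C / w * ((PP (WW w) ξ B (B + n / 2) h).card : ℝ) ^ 2)
    (hwC : 24 * C / w ≤ ε / 16) (hB : S_BETA) (hPi : 1 / (y : ℝ) ≤ Pi2 w y h)
    (hbig : (10 + 72 * 16 / ε) * √(n : ℝ) ≤ Q) (hBn : B ≤ n) (hAB : B + n / 2 ≤ n + A)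
    (hgood : ∀ β < WW w, (∀ p ∈ pz w, ¬ p ∣ (α + β) ∧ ¬ p ∣ (α + β) + h) →
      Q ≤ ((PP (WW w) (α + β) B (B + n / 2) h).card : ℝ)) :
    ((Bd K n (WW w) A B α h).card : ℝ) ≤ n / WW w * (3 * ε / 16) := by
  have hWr : (0 : ℝ) < WW w := by exact_mod_cast WW_pos w
  have hnr : (1 : ℝ) ≤ n := by exact_mod_cast hn1
  rcases (Bd K n (WW w) A B α h).eq_empty_or_nonempty with hemp | ⟨a0, ha0⟩
  · rw [hemp, card_empty, Nat.cast_zero]
    positivity
  rw [mem_Bd] at ha0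
  have hSC := SC_class hw3 ha0.2.1 ha0.2.2.2.1
  obtain ⟨β, hβW, hβ⟩ := hB w α (α + h) hSC
  obtain ⟨P, hP⟩ : ∃ P, P = PP (WW w) (α + β) B (B + n / 2) h := ⟨_, rfl⟩
  have hQ : Q ≤ (P.card : ℝ) := by
    rw [hP]
    apply hgood β hβW
    intro p hp
    have h1 := (hβ p hp).1
    have h2 := (hβ p hp).2.2.1
    constructor
    · intro h3
      apply h1
      have : ((p : ℕ) : ℤ) ∣ ((α + β : ℕ) : ℤ) := by exact_mod_cast h3
      push_cast at this
      exact this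
    · intro h3
      apply h2
      have : ((p : ℕ) : ℤ) ∣ ((α + β + h : ℕ) : ℤ) := by exact_mod_cast h3
      push_cast at this ⊢
      have e : (α : ℤ) + h + β = α + β + h := by ring
      rw [e]
      exact this
  have hs1 : (1 : ℝ) ≤ √(n : ℝ) := Real.one_le_sqrt.2 hnr
  have hs0 : (0 : ℝ) < √(n : ℝ) := by linarith
  have hQ0 : 0 < Q := lt_of_lt_of_le (by positivity) hbig
  have hPc : (0 : ℝ) < (P.card : ℝ) := lt_of_lt_of_le hQ0 hQ
  have hPne : P.Nonempty := by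
    rw [← card_pos]
    exact_mod_cast hPc
  have hPsub : P ⊆ Icc 1 (2 * n) := by
    intro x hx
    rw [hP] at hx
    unfold PP at hx
    have h1 := (mem_filter.1 hx).1
    rw [mem_Ioc] at h1
    rw [mem_Icc]
    omega
  -- the size of `y`
  have hy1 : 1 ≤ y := by
    by_contra hcon
    have : y = 0 := by omega
    rw [this, zero_add, one_pow] at hKy
    omega
  have hy2 : (y : ℝ) ≤ √(n : ℝ) := by
    apply Real.le_sqrt_of_sq_le
    have : y ^ 2 ≤ n := le_trans (Nat.pow_le_pow_right hy1 hK2) hyK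
    exact_mod_cast this
  have hyr : (0 : ℝ) < y := by exact_mod_cast hy1
  have hPPi : 10 + 72 * 16 / ε ≤ (P.card : ℝ) * Pi2 w y h := by
    have h1 : (P.card : ℝ) * (1 / y) ≤ P.card * Pi2 w y h := mul_le_mul_of_nonneg_left hPi hPc.le
    have h2 : (10 + 72 * 16 / ε) * √(n : ℝ) * (1 / y) ≤ (P.card : ℝ) * (1 / y) :=
      mul_le_mul_of_nonneg_right (hbig.trans hQ) (by positivity)
    have h3 : (10 + 72 * 16 / ε) ≤ (10 + 72 * 16 / ε) * √(n : ℝ) * (1 / y) := by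
      have h4 : (1 : ℝ) ≤ √(n : ℝ) * (1 / y) := by
        rw [mul_one_div, le_div_iff₀ hyr, one_mul]
        exact hy2
      have h5 : 0 ≤ (10 + 72 * 16 / ε) := by positivity
      calc (10 + 72 * 16 / ε) = (10 + 72 * 16 / ε) * 1 := by ring
        _ ≤ (10 + 72 * 16 / ε) * (√(n : ℝ) * (1 / y)) := mul_le_mul_of_nonneg_left h4 h5
        _ = _ := by ring
    linarith
  have hpe : 0 < 72 * 16 / ε := by positivity
  have hV1 := hV P hPsub hPne
  have hS1 : SG w h P ≤ C / w * (P.card : ℝ) ^ 2 := by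
    rw [hP] at hQ ⊢
    exact hS _ hQ
  -- the exceptional set
  have hsub : Bd K n (WW w) A B α h ⊆ (Ioc A B).filter (fun a => a ≡ α [MOD WW w] ∧
      ((P.filter (fun x => Rgh y w a h x)).card : ℝ) ≤ P.card * Pi2 w y h / 2) := by
    intro a ha
    rw [mem_Bd] at ha
    obtain ⟨⟨a1, a2⟩, a3, a4, a5, a6⟩ := ha
    rw [mem_filter, mem_Ioc]
    refine ⟨⟨a1, a2⟩, a3, ?_⟩
    by_contra hcon
    push Not at hcon
    have h5 : (5 : ℝ) ≤ ((P.filter (fun x => Rgh y w a h x)).card : ℝ) := by linarith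
    have h6 : 5 ≤ (P.filter (fun x => Rgh y w a h x)).card := by exact_mod_cast h5
    obtain ⟨x, hxP, hxr, hx1, hx2⟩ := choose_x P h6
    rw [hP] at hxP
    unfold PP at hxP
    rw [mem_filter, mem_Ioc] at hxP
    obtain ⟨⟨x1, x2⟩, x3, x4, x5⟩ := hxP
    exact a6 (adj_of hKy hw3 hβ a3 x3 x4 x5 hxr (by omega) (by omega) hx1 hx2)
  have hc1 : ((Bd K n (WW w) A B α h).card : ℝ) ≤ _ := (Nat.cast_le.2 (card_le_card hsub)).trans hV1
  refine hc1.trans ?_
  apply mul_le_mul_of_nonneg_left _ (by positivity)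
  have t1 : 24 * SG w h P / (P.card : ℝ) ^ 2 ≤ ε / 16 := by
    rw [div_le_iff₀ (by positivity)]
    have : 24 * (C / w * (P.card : ℝ) ^ 2) = (24 * C / w) * (P.card : ℝ) ^ 2 := by ring
    have h7 := mul_le_mul_of_nonneg_right hwC (sq_nonneg (P.card : ℝ))
    linarith
  have t2 : 72 / ((P.card : ℝ) * Pi2 w y h) ≤ ε / 16 := by
    rw [div_le_iff₀ (by linarith)]
    have h8 : 72 * 16 / ε ≤ (P.card : ℝ) * Pi2 w y h := by linarith
    have h9 := mul_le_mul_of_nonneg_left h8 (by positivity : (0 : ℝ) ≤ ε / 16)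
    have : ε / 16 * (72 * 16 / ε) = 72 := by field_simp
    linarith
  linarith

open Classical in
/-- one class and one window -/
lemma window_sum {K n w A B α : ℕ} {ε Q CA : ℝ} (hε : 0 < ε) (hw3 : 3 ≤ w) (hWn : WW w ≤ n) (hαW : α < WW w)
    (hAB : A ≤ B) (hBn : B ≤ n) (hwA : CA / w ≤ ε / 16)
    (hmark : (((Icc 1 n).filter (fun h => ¬ gw w h ≤ 2)).card : ℝ) ≤ CA * n / w)
    (hPP : ∀ ξ : ℕ, (((Icc 1 n).filter (fun h => (∀ p ∈ pz w, ¬ p ∣ ξ ∧ ¬ p ∣ ξ + h) ∧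
      ((PP (WW w) ξ B (B + n / 2) h).card : ℝ) < Q)).card : ℝ) ≤ ε / (64 * WW w) * n)
    (hgood : ∀ h ∈ Icc 1 n, gw w h ≤ 2 → (∀ β < WW w, (∀ p ∈ pz w, ¬ p ∣ (α + β) ∧ ¬ p ∣ (α + β) + h) →
      Q ≤ ((PP (WW w) (α + β) B (B + n / 2) h).card : ℝ)) →
      ((Bd K n (WW w) A B α h).card : ℝ) ≤ n / WW w * (3 * ε / 16)) :
    ∑ h ∈ Icc 1 n, ((Bd K n (WW w) A B α h).card : ℝ) ≤ 7 / 16 * ε * (n : ℝ) ^ 2 / WW w := by
  have hW := WW_pos w
  have hWr : (0 : ℝ) < WW w := by exact_mod_cast hW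
  have hWnr : (WW w : ℝ) ≤ n := by exact_mod_cast hWn
  have hn0 : (0 : ℝ) < n := by linarith
  -- the bad differences
  obtain ⟨E1, hE1⟩ : ∃ E1, E1 = (Icc 1 n).filter (fun h => ¬ gw w h ≤ 2) := ⟨_, rfl⟩
  obtain ⟨E2, hE2⟩ : ∃ E2, E2 = (range (WW w)).biUnion (fun β => (Icc 1 n).filter (fun h =>
      (∀ p ∈ pz w, ¬ p ∣ (α + β) ∧ ¬ p ∣ (α + β) + h) ∧ ((PP (WW w) (α + β) B (B + n / 2) h).card : ℝ) < Q)) := ⟨_, rfl⟩
  have hc1 : (E1.card : ℝ) ≤ ε / 16 * n := by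
    rw [hE1]
    refine hmark.trans ?_
    have := mul_le_mul_of_nonneg_right hwA hn0.le
    calc CA * n / w = CA / w * n := by ring
      _ ≤ _ := this
  have hc2 : (E2.card : ℝ) ≤ ε / 64 * n := by
    rw [hE2]
    calc _ ≤ ((∑ β ∈ range (WW w), ((Icc 1 n).filter (fun h =>
        (∀ p ∈ pz w, ¬ p ∣ (α + β) ∧ ¬ p ∣ (α + β) + h) ∧ ((PP (WW w) (α + β) B (B + n / 2) h).card : ℝ) < Q)).card : ℕ) : ℝ) := by
          exact_mod_cast card_biUnion_le
      _ ≤ ∑ β ∈ range (WW w), ε / (64 * WW w) * n := by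
          push_cast
          exact sum_le_sum fun β _ => hPP (α + β)
      _ = ε / 64 * n := by
          rw [sum_const, card_range, nsmul_eq_mul]
          field_simp
  have hbnd : ∀ h ∈ Icc 1 n, ((Bd K n (WW w) A B α h).card : ℝ) ≤
      n / WW w * (3 * ε / 16) + (if h ∈ E1 then 2 * (n / WW w : ℝ) else 0) + (if h ∈ E2 then 2 * (n / WW w : ℝ) else 0) := by
    intro h hh
    have htriv : ((Bd K n (WW w) A B α h).card : ℝ) ≤ 2 * (n / WW w : ℝ) := by
      have h1 : (Bd K n (WW w) A B α h).card ≤ ((Ioc A B).filter (fun a => a ≡ α [MOD WW w])).card := by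
        apply card_le_card
        intro a ha
        rw [mem_Bd] at ha
        exact mem_filter.2 ⟨mem_Ioc.2 ha.1, ha.2.1⟩
      have h2 := card_class n A B (WW w) α hW hAB hBn
      have h3 : (1 : ℝ) ≤ n / WW w := by
        rw [le_div_iff₀ hWr, one_mul]
        exact hWnr
      have h4 : ((Bd K n (WW w) A B α h).card : ℝ) ≤ (((Ioc A B).filter (fun a => a ≡ α [MOD WW w])).card : ℝ) := by
        exact_mod_cast h1
      linarith
    have hpos : 0 ≤ n / WW w * (3 * ε / 16) := by positivity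
    have hpos2 : (0 : ℝ) ≤ 2 * (n / WW w) := by positivity
    by_cases g1 : h ∈ E1
    · rw [if_pos g1]
      split_ifs <;> linarith
    · by_cases g2 : h ∈ E2
      · rw [if_pos g2, if_neg g1]
        linarith
      · rw [if_neg g1, if_neg g2, add_zero, add_zero]
        apply hgood h hh
        · by_contra hcon
          exact g1 (by rw [hE1]; exact mem_filter.2 ⟨hh, hcon⟩)
        · intro β hβ hcop
          by_contra hcon
          push Not at hcon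
          exact g2 (by rw [hE2]; exact mem_biUnion.2 ⟨β, mem_range.2 hβ, mem_filter.2 ⟨hh, hcop, hcon⟩⟩)
  refine (sum_le_sum hbnd).trans ?_
  rw [sum_add_distrib, sum_add_distrib, sum_const, Nat.card_Icc, nsmul_eq_mul, ← sum_filter, ← sum_filter, sum_const,
    sum_const, nsmul_eq_mul, nsmul_eq_mul]
  have e1 : (((Icc 1 n).filter (fun h => h ∈ E1)).card : ℝ) ≤ ε / 16 * n := by
    refine le_trans ?_ hc1
    exact_mod_cast card_le_card (fun h hh => (mem_filter.1 hh).2)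
  have e2 : (((Icc 1 n).filter (fun h => h ∈ E2)).card : ℝ) ≤ ε / 64 * n := by
    refine le_trans ?_ hc2
    exact_mod_cast card_le_card (fun h hh => (mem_filter.1 hh).2)
  have hp : (0 : ℝ) ≤ 2 * (n / WW w) := by positivity
  have f1 := mul_le_mul_of_nonneg_right e1 hp
  have f2 := mul_le_mul_of_nonneg_right e2 hp
  have e3 : (((n + 1 - 1 : ℕ)) : ℝ) = n := by simp
  rw [e3]
  have e4 : (n : ℝ) * (n / WW w * (3 * ε / 16)) + ε / 16 * n * (2 * (n / WW w)) + ε / 64 * n * (2 * (n / WW w)) ≤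
      7 / 16 * ε * (n : ℝ) ^ 2 / WW w := by
    have : (n : ℝ) * (n / WW w * (3 * ε / 16)) + ε / 16 * n * (2 * (n / WW w)) + ε / 64 * n * (2 * (n / WW w)) =
        (3 / 16 + 1 / 8 + 1 / 32) * (ε * (n : ℝ) ^ 2 / WW w) := by
      field_simp
      ring
    rw [this]
    have h0 : 0 ≤ ε * (n : ℝ) ^ 2 / WW w := by positivity
    have : 7 / 16 * ε * (n : ℝ) ^ 2 / WW w = 7 / 16 * (ε * (n : ℝ) ^ 2 / WW w) := by ring
    rw [this]
    nlinarith
  linarith

end Pool.Agent.P8H49.GM
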