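import Pool.Agent.P8H49.GM.Link3

set_option autoImplicit false

/-!
# Project GM: almost all pairs of vertices of the same class have a common neighbour
-/

namespace Pool.Agent.P8H49.GM

open Finset
open Pool.Agent.H373R2.T7 (pz Vz mem_pz Vz_pos)

lemma exists_root (n K : ℕ) (hK : 1 ≤ K) : ∃ y : ℕ, y ^ K ≤ n ∧ n < (y + 1) ^ K := by
  classical
  refine ⟨Nat.findGreatest (fun y => y ^ K ≤ n) n, ?_, ?_⟩
  · have := Nat.findGreatest_spec (P := fun y => y ^ K ≤ n) (m := 0) (n := n) (Nat.zero_le _)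
      (by rw [zero_pow (by omega)]; exact Nat.zero_le _)
    exact this
  · by_contra hcon
    push Not at hcon
    have h1 : Nat.findGreatest (fun y => y ^ K ≤ n) n + 1 ≤ n := by
      refine le_trans ?_ hcon
      exact Nat.le_self_pow (by omega) _
    have h2 := Nat.le_findGreatest (P := fun y => y ^ K ≤ n) h1 hcon
    omega

theorem t_link (hV : S_VAR) (hS : S_SUM) (hP : S_PP) (hB : S_BETA) (hA : S_AVG) (hPr : S_PROD) : S_LINK := by
  classical
  intro ε hε
  obtain ⟨c0, hc0, hPP⟩ := hP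
  obtain ⟨C, hC, hSUM⟩ := hS c0 hc0
  obtain ⟨CA, hCA, hAVG⟩ := hA
  obtain ⟨K0, hVAR⟩ := hV (ε / 16) (by positivity)
  obtain ⟨w, hw⟩ := exists_nat_gt (max 3 (max (24 * C * 16 / ε) (CA * 16 / ε)))
  have hw3r : (3 : ℝ) < w := lt_of_le_of_lt (le_max_left _ _) hw
  have hw3 : 3 ≤ w := by exact_mod_cast hw3r.le
  have hw0 : (0 : ℝ) < w := by linarith
  have hwC : 24 * C / w ≤ ε / 16 := by
    have h1 : 24 * C * 16 / ε < w := lt_of_le_of_lt ((le_max_left _ _).trans (le_max_right _ _)) hw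
    rw [div_lt_iff₀ hε] at h1
    rw [div_le_iff₀ hw0]
    linarith
  have hwA : CA / w ≤ ε / 16 := by
    have h1 : CA * 16 / ε < w := lt_of_le_of_lt ((le_max_right _ _).trans (le_max_right _ _)) hw
    rw [div_lt_iff₀ hε] at h1
    rw [div_le_iff₀ hw0]
    linarith
  have hW := WW_pos w
  have hWr : (0 : ℝ) < WW w := by exact_mod_cast hW
  have hVz := Vz_pos w
  refine ⟨max K0 2, fun K hK => ?_⟩
  have hK0 : K0 ≤ K := le_trans (le_max_left _ _) hK
  have hK2 : 2 ≤ K := le_trans (le_max_right _ _) hK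
  obtain ⟨n1, h1⟩ := hVAR K hK0 w hw3
  obtain ⟨n2, h2⟩ := hSUM w hw3
  obtain ⟨n3, h3⟩ := hAVG w hw3
  obtain ⟨n4, h4⟩ := hPP w hw3 (ε / (64 * WW w)) (by positivity)
  obtain ⟨n5, h53, h5⟩ := log_sq_sqrt ((10 + 72 * 16 / ε) * (WW w * Vz w ^ 2) / c0)
  refine ⟨max (max n1 n2) (max (max n3 n4) (max n5 (WW w))), fun n hn => ?_⟩
  have hn1 : n1 ≤ n := le_trans ((le_max_left _ _).trans (le_max_left _ _)) hn
  have hn2 : n2 ≤ n := le_trans ((le_max_right _ _).trans (le_max_left _ _)) hn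
  have hn3 : n3 ≤ n := le_trans (((le_max_left _ _).trans (le_max_left _ _)).trans (le_max_right _ _)) hn
  have hn4 : n4 ≤ n := le_trans (((le_max_right _ _).trans (le_max_left _ _)).trans (le_max_right _ _)) hn
  have hn5 : n5 ≤ n := le_trans (((le_max_left _ _).trans (le_max_right _ _)).trans (le_max_right _ _)) hn
  have hnW : WW w ≤ n := le_trans (((le_max_right _ _).trans (le_max_right _ _)).trans (le_max_right _ _)) hn
  have hn3' : 3 ≤ n := h53.trans hn5
  have hnr : (3 : ℝ) ≤ n := by exact_mod_cast hn3'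
  have hlog : 0 < Real.log n := Real.log_pos (by linarith)
  obtain ⟨y, hy1, hy2⟩ := exists_root n K (by omega)
  obtain ⟨Q, hQ⟩ : ∃ Q : ℝ, Q = c0 * (n / (WW w * Vz w ^ 2 * Real.log n ^ 2)) := ⟨_, rfl⟩
  have hbig : (10 + 72 * 16 / ε) * √(n : ℝ) ≤ Q := by
    have h6 := h5 n hn5
    rw [div_mul_eq_mul_div, div_le_iff₀ hc0] at h6
    rw [hQ, mul_div_assoc', le_div_iff₀ (by positivity)]
    have hs : √(n : ℝ) * √(n : ℝ) = n := Real.mul_self_sqrt (by linarith)
    have hs0 : 0 ≤ √(n : ℝ) := Real.sqrt_nonneg _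
    have h7 := mul_le_mul_of_nonneg_left h6 hs0
    calc (10 + 72 * 16 / ε) * √(n : ℝ) * (WW w * Vz w ^ 2 * Real.log n ^ 2) =
        √(n : ℝ) * ((10 + 72 * 16 / ε) * (WW w * Vz w ^ 2) * Real.log n ^ 2) := by ring
      _ ≤ √(n : ℝ) * (√(n : ℝ) * c0) := h7
      _ = c0 * n := by rw [← mul_assoc, hs]; ring
  have hmark := gw_markov (n := n) hw3 (fun r => h3 n hn3 r)
  -- both windows
  have key : ∀ A B : ℕ, A ≤ B → B ≤ n → B + n / 2 ≤ n + A → ∀ α < WW w,
      ∑ h ∈ Icc 1 n, ((Bd K n (WW w) A B α h).card : ℝ) ≤ 7 / 16 * ε * (n : ℝ) ^ 2 / WW w := by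
    intro A B hAB hBn hBA α hα
    apply window_sum (Q := Q) (CA := CA) hε hw3 hnW hα hAB hBn hwA hmark
    · intro ξ
      rw [hQ]
      exact h4 n hn4 B (B + n / 2) ξ (by omega) (by omega) (by omega)
    · intro h hh hgw hgood
      rw [mem_Icc] at hh
      refine good_h (Q := Q) (C := C) (y := y) hε hw3 hK2 hy1 hy2 (by omega) ?_ ?_ hwC hB ?_ hbig hBn hBA hgood
      · intro P hP hPn
        exact h1 n hn1 y hy1 hy2 α h A B hh.1 hh.2 hAB hBn P hP hPn
      · intro ξ hξ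
        rw [hQ] at hξ
        exact h2 n hn2 B (B + n / 2) ξ h (by omega) (by omega) hh.1 hh.2 hgw hξ
      · apply hPr.2 w y h hw3
        by_contra hcon
        have : y = 0 := by omega
        rw [this, zero_add, one_pow] at hy2
        omega
  -- summation
  have hsum : ∀ A B : ℕ, A ≤ B → B ≤ n → B + n / 2 ≤ n + A →
      ((∑ α ∈ range (WW w), ∑ h ∈ Icc 1 n, (Bd K n (WW w) A B α h).card : ℕ) : ℝ) ≤ 7 / 16 * ε * (n : ℝ) ^ 2 := by
    intro A B hAB hBn hBA
    push_cast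
    calc _ ≤ ∑ α ∈ range (WW w), 7 / 16 * ε * (n : ℝ) ^ 2 / WW w :=
          sum_le_sum fun α hα => key A B hAB hBn hBA α (mem_range.1 hα)
      _ = 7 / 16 * ε * (n : ℝ) ^ 2 := by
          rw [sum_const, card_range, nsmul_eq_mul]
          field_simp
  have s1 := hsum 0 (n / 2) (by omega) (by omega) (by omega)
  have s2 := hsum (n / 2) n (by omega) le_rfl (by omega)
  refine le_trans (Nat.cast_le.2 (bad_split K n (WW w) hW _ (fun q hq => ?_))) ?_
  · simp only [mem_filter, mem_product] at hq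
    exact ⟨hq.1.1, hq.1.2, hq.2.1, hq.2.2.1, hq.2.2.2⟩
  · rw [Nat.cast_add]
    have hn2 : 0 ≤ ε * (n : ℝ) ^ 2 := by positivity
    linarith

end Pool.Agent.P8H49.GM
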