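import Pool.Agent.P8H49.GM.Link2
import Pool.Agent.P8H49.GM.Link4

set_option autoImplicit false

/-!
# Project GM: almost all pairs of vertices of the same class have a common neighbour, general form
-/

namespace Pool.Agent.P8H49.GM

open Finset
open Pool.Agent.H373R2.T7 (pz Vz mem_pz Vz_pos)

/-- only the difference is relaxed -/
def MS (K n a b : ℕ) : Prop := a ≠ b ∧ OPr (a + b) ∧ (OPr (Nat.dist a b) ∨ Rog K n (Nat.dist a b))

/-- only the sum is relaxed -/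
def MD (K n a b : ℕ) : Prop := a ≠ b ∧ OPr (Nat.dist a b) ∧ (OPr (a + b) ∨ Rog K n (a + b))

open Classical in
/-- prime pairs in short windows -/
def S_PP2 : Prop := ∃ c0 : ℝ, 0 < c0 ∧ ∀ κ : ℝ, 0 < κ → ∀ w : ℕ, 3 ≤ w → ∀ ε : ℝ, 0 < ε → ∃ n0 : ℕ, ∀ n : ℕ, n0 ≤ n →
  ∀ A B ξ : ℕ, A ≤ B → B ≤ 2 * n → κ * n ≤ (B : ℝ) - A →
  (((Icc 1 n).filter (fun h => (∀ p ∈ pz w, ¬ p ∣ ξ ∧ ¬ p ∣ ξ + h) ∧
    ((PP (WW w) ξ A B h).card : ℝ) < c0 * κ * (n / (WW w * Vz w ^ 2 * Real.log n ^ 2)))).card : ℝ) ≤ ε * n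

open Classical in
/-- the exceptional first vertices for the difference `h` in a class and a window -/
noncomputable def Be (M : ℕ → ℕ → Prop) (n W A B α h : ℕ) : Finset ℕ :=
  (Ioc A B).filter (fun a => a ≡ α [MOD W] ∧ a + h ≤ n ∧ SC a (a + h) ∧ ¬ ∃ b ∈ Icc 1 n, M a b ∧ M (a + h) b)

lemma mem_Be {M : ℕ → ℕ → Prop} {n W A B α h a : ℕ} : a ∈ Be M n W A B α h ↔ (A < a ∧ a ≤ B) ∧ a ≡ α [MOD W] ∧
    a + h ≤ n ∧ SC a (a + h) ∧ ¬ ∃ b ∈ Icc 1 n, M a b ∧ M (a + h) b := by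
  classical
  unfold Be
  simp only [mem_filter, mem_Ioc]

/-- the conditions on the class `β` -/
def Bc (w α h β : ℕ) : Prop := ∀ p ∈ pz w, ¬ (p : ℤ) ∣ (α : ℤ) + β ∧ ¬ (p : ℤ) ∣ (α : ℤ) - β ∧
  ¬ (p : ℤ) ∣ ((α + h : ℕ) : ℤ) + β ∧ ¬ (p : ℤ) ∣ ((α + h : ℕ) : ℤ) - β

/-- the primes of a suitable class give common neighbours -/
def Ad (M : ℕ → ℕ → Prop) (n y w A B X1 X2 α h β : ℕ) : Prop := ∃ ξ < 2 * WW w, (∀ p ∈ pz w, ¬ p ∣ ξ ∧ ¬ p ∣ ξ + h) ∧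
  ∀ a x : ℕ, A < a → a ≤ B → a + h ≤ n → a ≡ α [MOD WW w] → x ∈ PP (WW w) ξ X1 X2 h → Rgh y w a h x →
  (2 * (a : ℤ) - x).natAbs ≠ 1 → (2 * (a : ℤ) + h - x).natAbs ≠ 1 → ∃ b ∈ Icc 1 n, M a b ∧ M (a + h) b

open Classical in
/-- a good difference -/
lemma good_hG {M : ℕ → ℕ → Prop} {K n y w α h A B X1 X2 : ℕ} {ε Q C : ℝ} (hε : 0 < ε) (hw3 : 3 ≤ w)
    (hK2 : 2 ≤ K) (hyK : y ^ K ≤ n) (hKy : n < (y + 1) ^ K) (hn1 : 1 ≤ n)
    (hV : ∀ P : Finset ℕ, P ⊆ Icc 1 (2 * n) → P.Nonempty → (((Ioc A B).filter (fun a => a ≡ α [MOD WW w] ∧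
      ((P.filter (fun x => Rgh y w a h x)).card : ℝ) ≤ P.card * Pi2 w y h / 2)).card : ℝ) ≤
      n / WW w * (ε / 16 + 24 * SG w h P / (P.card : ℝ) ^ 2 + 72 / (P.card * Pi2 w y h)))
    (hS : ∀ ξ, Q ≤ ((PP (WW w) ξ X1 X2 h).card : ℝ) →
       SG w h (PP (WW w) ξ X1 X2 h) ≤ C / w * ((PP (WW w) ξ X1 X2 h).card : ℝ) ^ 2)
    (hwC : 24 * C / w ≤ ε / 16) (hB : S_BETA) (hPi : 1 / (y : ℝ) ≤ Pi2 w y h)
    (hbig : (10 + 72 * 16 / ε) * √(n : ℝ) ≤ Q) (hX2 : X2 ≤ 2 * n)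
    (had : ∀ β < WW w, Bc w α h β → Ad M n y w A B X1 X2 α h β)
    (hgood : ∀ ξ < 2 * WW w, (∀ p ∈ pz w, ¬ p ∣ ξ ∧ ¬ p ∣ ξ + h) → Q ≤ ((PP (WW w) ξ X1 X2 h).card : ℝ)) :
    ((Be M n (WW w) A B α h).card : ℝ) ≤ n / WW w * (3 * ε / 16) := by
  have hWr : (0 : ℝ) < WW w := by exact_mod_cast WW_pos w
  have hnr : (1 : ℝ) ≤ n := by exact_mod_cast hn1
  rcases (Be M n (WW w) A B α h).eq_empty_or_nonempty with hemp | ⟨a0, ha0⟩
  · rw [hemp, card_empty, Nat.cast_zero]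
    positivity
  rw [mem_Be] at ha0
  have hSC := SC_class hw3 ha0.2.1 ha0.2.2.2.1
  obtain ⟨β, hβW, hβ⟩ := hB w α (α + h) hSC
  obtain ⟨ξ, hξW, hξc, hξ⟩ := had β hβW hβ
  obtain ⟨P, hP⟩ : ∃ P, P = PP (WW w) ξ X1 X2 h := ⟨_, rfl⟩
  have hQ : Q ≤ (P.card : ℝ) := by
    rw [hP]
    exact hgood ξ hξW hξc
  have hs1 : (1 : ℝ) ≤ √(n : ℝ) := Real.one_le_sqrt.2 hnr
  have hs0 : (0 : ℝ) < √(n : ℝ) := by linarith
  have hQ0 : 0 < Q := lt_of_lt_of_le (by positivity) hbig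
  have hPc : (0 : ℝ) < (P.card : ℝ) := lt_of_lt_of_le hQ0 hQ
  have hPne : P.Nonempty := by
    rw [← card_pos]
    exact_mod_cast hPc
  have hPsub : P ⊆ Icc 1 (2 * n) := by
    intro x hx
    rw [hP] at hx
    unfold PP at hx
    have h1 := (mem_filter.1 hx).1
    rw [mem_Ioc] at h1
    rw [mem_Icc]
    omega
  -- the size of `y`
  have hy1 : 1 ≤ y := by
    by_contra hcon
    have : y = 0 := by omega
    rw [this, zero_add, one_pow] at hKy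
    omega
  have hy2 : (y : ℝ) ≤ √(n : ℝ) := by
    apply Real.le_sqrt_of_sq_le
    have : y ^ 2 ≤ n := le_trans (Nat.pow_le_pow_right hy1 hK2) hyK
    exact_mod_cast this
  have hyr : (0 : ℝ) < y := by exact_mod_cast hy1
  have hPPi : 10 + 72 * 16 / ε ≤ (P.card : ℝ) * Pi2 w y h := by
    have h1 : (P.card : ℝ) * (1 / y) ≤ P.card * Pi2 w y h := mul_le_mul_of_nonneg_left hPi hPc.le
    have h2 : (10 + 72 * 16 / ε) * √(n : ℝ) * (1 / y) ≤ (P.card : ℝ) * (1 / y) :=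
      mul_le_mul_of_nonneg_right (hbig.trans hQ) (by positivity)
    have h3 : (10 + 72 * 16 / ε) ≤ (10 + 72 * 16 / ε) * √(n : ℝ) * (1 / y) := by
      have h4 : (1 : ℝ) ≤ √(n : ℝ) * (1 / y) := by
        rw [mul_one_div, le_div_iff₀ hyr, one_mul]
        exact hy2
      have h5 : 0 ≤ (10 + 72 * 16 / ε) := by positivity
      calc (10 + 72 * 16 / ε) = (10 + 72 * 16 / ε) * 1 := by ring
        _ ≤ (10 + 72 * 16 / ε) * (√(n : ℝ) * (1 / y)) := mul_le_mul_of_nonneg_left h4 h5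
        _ = _ := by ring
    linarith
  have hpe : 0 < 72 * 16 / ε := by positivity
  have hV1 := hV P hPsub hPne
  have hS1 : SG w h P ≤ C / w * (P.card : ℝ) ^ 2 := by
    rw [hP] at hQ ⊢
    exact hS _ hQ
  -- the exceptional set
  have hsub : Be M n (WW w) A B α h ⊆ (Ioc A B).filter (fun a => a ≡ α [MOD WW w] ∧
      ((P.filter (fun x => Rgh y w a h x)).card : ℝ) ≤ P.card * Pi2 w y h / 2) := by
    intro a ha
    rw [mem_Be] at ha
    obtain ⟨⟨a1, a2⟩, a3, a4, a5, a6⟩ := ha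
    rw [mem_filter, mem_Ioc]
    refine ⟨⟨a1, a2⟩, a3, ?_⟩
    by_contra hcon
    push Not at hcon
    have h5 : (5 : ℝ) ≤ ((P.filter (fun x => Rgh y w a h x)).card : ℝ) := by linarith
    have h6 : 5 ≤ (P.filter (fun x => Rgh y w a h x)).card := by exact_mod_cast h5
    obtain ⟨x, hxP, hxr, hx1, hx2⟩ := choose_x P h6
    rw [hP] at hxP
    exact a6 (hξ a x a1 a2 a4 a3 hxP hxr hx1 hx2)
  have hc1 : ((Be M n (WW w) A B α h).card : ℝ) ≤ _ := (Nat.cast_le.2 (card_le_card hsub)).trans hV1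
  refine hc1.trans ?_
  apply mul_le_mul_of_nonneg_left _ (by positivity)
  have t1 : 24 * SG w h P / (P.card : ℝ) ^ 2 ≤ ε / 16 := by
    rw [div_le_iff₀ (by positivity)]
    have : 24 * (C / w * (P.card : ℝ) ^ 2) = (24 * C / w) * (P.card : ℝ) ^ 2 := by ring
    have h7 := mul_le_mul_of_nonneg_right hwC (sq_nonneg (P.card : ℝ))
    linarith
  have t2 : 72 / ((P.card : ℝ) * Pi2 w y h) ≤ ε / 16 := by
    rw [div_le_iff₀ (by linarith)]
    have h8 : 72 * 16 / ε ≤ (P.card : ℝ) * Pi2 w y h := by linarith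
    have h9 := mul_le_mul_of_nonneg_left h8 (by positivity : (0 : ℝ) ≤ ε / 16)
    have : ε / 16 * (72 * 16 / ε) = 72 := by field_simp
    linarith
  linarith

open Classical in
/-- one class and one window -/
lemma window_sumG {M : ℕ → ℕ → Prop} {n w A B X1 X2 α : ℕ} {ε Q CA : ℝ} (hε : 0 < ε) (hWn : WW w ≤ n)
    (hAB : A ≤ B) (hBn : B ≤ n) (hwA : CA / w ≤ ε / 16)
    (hmark : (((Icc 1 n).filter (fun h => ¬ gw w h ≤ 2)).card : ℝ) ≤ CA * n / w)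
    (hPP : ∀ ξ : ℕ, (((Icc 1 n).filter (fun h => (∀ p ∈ pz w, ¬ p ∣ ξ ∧ ¬ p ∣ ξ + h) ∧
      ((PP (WW w) ξ X1 X2 h).card : ℝ) < Q)).card : ℝ) ≤ ε / (64 * WW w) * n)
    (hgood : ∀ h ∈ Icc 1 n, gw w h ≤ 2 → (∀ ξ < 2 * WW w, (∀ p ∈ pz w, ¬ p ∣ ξ ∧ ¬ p ∣ ξ + h) →
      Q ≤ ((PP (WW w) ξ X1 X2 h).card : ℝ)) → ((Be M n (WW w) A B α h).card : ℝ) ≤ n / WW w * (3 * ε / 16)) :
    ∑ h ∈ Icc 1 n, ((Be M n (WW w) A B α h).card : ℝ) ≤ 7 / 16 * ε * (n : ℝ) ^ 2 / WW w := by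
  have hW := WW_pos w
  have hWr : (0 : ℝ) < WW w := by exact_mod_cast hW
  have hWnr : (WW w : ℝ) ≤ n := by exact_mod_cast hWn
  have hn0 : (0 : ℝ) < n := by linarith
  -- the bad differences
  obtain ⟨E1, hE1⟩ : ∃ E1, E1 = (Icc 1 n).filter (fun h => ¬ gw w h ≤ 2) := ⟨_, rfl⟩
  obtain ⟨E2, hE2⟩ : ∃ E2, E2 = (range (2 * WW w)).biUnion (fun ξ => (Icc 1 n).filter (fun h =>
      (∀ p ∈ pz w, ¬ p ∣ ξ ∧ ¬ p ∣ ξ + h) ∧ ((PP (WW w) ξ X1 X2 h).card : ℝ) < Q)) := ⟨_, rfl⟩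
  have hc1 : (E1.card : ℝ) ≤ ε / 16 * n := by
    rw [hE1]
    refine hmark.trans ?_
    have := mul_le_mul_of_nonneg_right hwA hn0.le
    calc CA * n / w = CA / w * n := by ring
      _ ≤ _ := this
  have hc2 : (E2.card : ℝ) ≤ ε / 32 * n := by
    rw [hE2]
    calc _ ≤ ((∑ ξ ∈ range (2 * WW w), ((Icc 1 n).filter (fun h =>
        (∀ p ∈ pz w, ¬ p ∣ ξ ∧ ¬ p ∣ ξ + h) ∧ ((PP (WW w) ξ X1 X2 h).card : ℝ) < Q)).card : ℕ) : ℝ) := by
          exact_mod_cast card_biUnion_le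
      _ ≤ ∑ ξ ∈ range (2 * WW w), ε / (64 * WW w) * n := by
          push_cast
          exact sum_le_sum fun ξ _ => hPP ξ
      _ = ε / 32 * n := by
          rw [sum_const, card_range, nsmul_eq_mul]
          push_cast
          field_simp
          ring
  have hbnd : ∀ h ∈ Icc 1 n, ((Be M n (WW w) A B α h).card : ℝ) ≤
      n / WW w * (3 * ε / 16) + (if h ∈ E1 then 2 * (n / WW w : ℝ) else 0) + (if h ∈ E2 then 2 * (n / WW w : ℝ) else 0) := by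
    intro h hh
    have htriv : ((Be M n (WW w) A B α h).card : ℝ) ≤ 2 * (n / WW w : ℝ) := by
      have h1 : (Be M n (WW w) A B α h).card ≤ ((Ioc A B).filter (fun a => a ≡ α [MOD WW w])).card := by
        apply card_le_card
        intro a ha
        rw [mem_Be] at ha
        exact mem_filter.2 ⟨mem_Ioc.2 ha.1, ha.2.1⟩
      have h2 := card_class n A B (WW w) α hW hAB hBn
      have h3 : (1 : ℝ) ≤ n / WW w := by
        rw [le_div_iff₀ hWr, one_mul]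
        exact hWnr
      have h4 : ((Be M n (WW w) A B α h).card : ℝ) ≤ (((Ioc A B).filter (fun a => a ≡ α [MOD WW w])).card : ℝ) := by
        exact_mod_cast h1
      linarith
    have hpos : 0 ≤ n / WW w * (3 * ε / 16) := by positivity
    have hpos2 : (0 : ℝ) ≤ 2 * (n / WW w) := by positivity
    by_cases g1 : h ∈ E1
    · rw [if_pos g1]
      split_ifs <;> linarith
    · by_cases g2 : h ∈ E2
      · rw [if_pos g2, if_neg g1]
        linarith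
      · rw [if_neg g1, if_neg g2, add_zero, add_zero]
        apply hgood h hh
        · by_contra hcon
          exact g1 (by rw [hE1]; exact mem_filter.2 ⟨hh, hcon⟩)
        · intro ξ hξ hcop
          by_contra hcon
          push Not at hcon
          exact g2 (by rw [hE2]; exact mem_biUnion.2 ⟨ξ, mem_range.2 hξ, mem_filter.2 ⟨hh, hcop, hcon⟩⟩)
  refine (sum_le_sum hbnd).trans ?_
  rw [sum_add_distrib, sum_add_distrib, sum_const, Nat.card_Icc, nsmul_eq_mul, ← sum_filter, ← sum_filter, sum_const,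
    sum_const, nsmul_eq_mul, nsmul_eq_mul]
  have e1 : (((Icc 1 n).filter (fun h => h ∈ E1)).card : ℝ) ≤ ε / 16 * n := by
    refine le_trans ?_ hc1
    exact_mod_cast card_le_card (fun h hh => (mem_filter.1 hh).2)
  have e2 : (((Icc 1 n).filter (fun h => h ∈ E2)).card : ℝ) ≤ ε / 32 * n := by
    refine le_trans ?_ hc2
    exact_mod_cast card_le_card (fun h hh => (mem_filter.1 hh).2)
  have hp : (0 : ℝ) ≤ 2 * (n / WW w) := by positivity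
  have f1 := mul_le_mul_of_nonneg_right e1 hp
  have f2 := mul_le_mul_of_nonneg_right e2 hp
  have e3 : (((n + 1 - 1 : ℕ)) : ℝ) = n := by simp
  rw [e3]
  have e4 : (n : ℝ) * (n / WW w * (3 * ε / 16)) + ε / 16 * n * (2 * (n / WW w)) + ε / 32 * n * (2 * (n / WW w)) ≤
      7 / 16 * ε * (n : ℝ) ^ 2 / WW w := by
    have : (n : ℝ) * (n / WW w * (3 * ε / 16)) + ε / 16 * n * (2 * (n / WW w)) + ε / 32 * n * (2 * (n / WW w)) =
        (3 / 16 + 1 / 8 + 1 / 16) * (ε * (n : ℝ) ^ 2 / WW w) := by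
      field_simp
      ring
    rw [this]
    have h0 : 0 ≤ ε * (n : ℝ) ^ 2 / WW w := by positivity
    have : 7 / 16 * ε * (n : ℝ) ^ 2 / WW w = 7 / 16 * (ε * (n : ℝ) ^ 2 / WW w) := by ring
    rw [this]
    nlinarith
  linarith

/-- all windows -/
theorem win_gen (hV : S_VAR) (hS : S_SUM) (hP : S_PP2) (hB : S_BETA) (hA : S_AVG) (hPr : S_PROD) (ε κ : ℝ) (hε : 0 < ε)
    (hκ : 0 < κ) : ∃ (K0 w : ℕ), 3 ≤ w ∧ ∀ K : ℕ, K0 ≤ K → ∃ n0 : ℕ, ∀ n : ℕ, n0 ≤ n → ∃ y : ℕ, n < (y + 1) ^ K ∧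
      ∀ (M : ℕ → ℕ → Prop) (A B X1 X2 : ℕ), A ≤ B → B ≤ n → X1 ≤ X2 → X2 ≤ 2 * n → κ * n ≤ (X2 : ℝ) - X1 →
      (∀ α h β : ℕ, α < WW w → β < WW w → Bc w α h β → Ad M n y w A B X1 X2 α h β) → ∀ α < WW w,
      ∑ h ∈ Icc 1 n, ((Be M n (WW w) A B α h).card : ℝ) ≤ 7 / 16 * ε * (n : ℝ) ^ 2 / WW w := by
  classical
  obtain ⟨c0', hc0', hPP⟩ := hP
  obtain ⟨c0, hc0e⟩ : ∃ c0, c0 = c0' * κ := ⟨_, rfl⟩
  have hc0 : 0 < c0 := by rw [hc0e]; positivity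
  obtain ⟨C, hC, hSUM⟩ := hS c0 hc0
  obtain ⟨CA, hCA, hAVG⟩ := hA
  obtain ⟨K0, hVAR⟩ := hV (ε / 16) (by positivity)
  obtain ⟨w, hw⟩ := exists_nat_gt (max 3 (max (24 * C * 16 / ε) (CA * 16 / ε)))
  have hw3r : (3 : ℝ) < w := lt_of_le_of_lt (le_max_left _ _) hw
  have hw3 : 3 ≤ w := by exact_mod_cast hw3r.le
  have hw0 : (0 : ℝ) < w := by linarith
  have hwC : 24 * C / w ≤ ε / 16 := by
    have h1 : 24 * C * 16 / ε < w := lt_of_le_of_lt ((le_max_left _ _).trans (le_max_right _ _)) hw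
    rw [div_lt_iff₀ hε] at h1
    rw [div_le_iff₀ hw0]
    linarith
  have hwA : CA / w ≤ ε / 16 := by
    have h1 : CA * 16 / ε < w := lt_of_le_of_lt ((le_max_right _ _).trans (le_max_right _ _)) hw
    rw [div_lt_iff₀ hε] at h1
    rw [div_le_iff₀ hw0]
    linarith
  have hW := WW_pos w
  have hWr : (0 : ℝ) < WW w := by exact_mod_cast hW
  have hVz := Vz_pos w
  refine ⟨max K0 2, w, hw3, fun K hK => ?_⟩
  have hK0 : K0 ≤ K := le_trans (le_max_left _ _) hK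
  have hK2 : 2 ≤ K := le_trans (le_max_right _ _) hK
  obtain ⟨n1, h1⟩ := hVAR K hK0 w hw3
  obtain ⟨n2, h2⟩ := hSUM w hw3
  obtain ⟨n3, h3⟩ := hAVG w hw3
  obtain ⟨n4, h4⟩ := hPP κ hκ w hw3 (ε / (64 * WW w)) (by positivity)
  obtain ⟨n5, h53, h5⟩ := log_sq_sqrt ((10 + 72 * 16 / ε) * (WW w * Vz w ^ 2) / c0)
  refine ⟨max (max n1 n2) (max (max n3 n4) (max n5 (WW w))), fun n hn => ?_⟩
  have hn1 : n1 ≤ n := le_trans ((le_max_left _ _).trans (le_max_left _ _)) hn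
  have hn2 : n2 ≤ n := le_trans ((le_max_right _ _).trans (le_max_left _ _)) hn
  have hn3 : n3 ≤ n := le_trans (((le_max_left _ _).trans (le_max_left _ _)).trans (le_max_right _ _)) hn
  have hn4 : n4 ≤ n := le_trans (((le_max_right _ _).trans (le_max_left _ _)).trans (le_max_right _ _)) hn
  have hn5 : n5 ≤ n := le_trans (((le_max_left _ _).trans (le_max_right _ _)).trans (le_max_right _ _)) hn
  have hnW : WW w ≤ n := le_trans (((le_max_right _ _).trans (le_max_right _ _)).trans (le_max_right _ _)) hn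
  have hn3' : 3 ≤ n := h53.trans hn5
  have hnr : (3 : ℝ) ≤ n := by exact_mod_cast hn3'
  have hlog : 0 < Real.log n := Real.log_pos (by linarith)
  obtain ⟨y, hy1, hy2⟩ := exists_root n K (by omega)
  obtain ⟨Q, hQ⟩ : ∃ Q : ℝ, Q = c0 * (n / (WW w * Vz w ^ 2 * Real.log n ^ 2)) := ⟨_, rfl⟩
  have hbig : (10 + 72 * 16 / ε) * √(n : ℝ) ≤ Q := by
    have h6 := h5 n hn5
    rw [div_mul_eq_mul_div, div_le_iff₀ hc0] at h6
    rw [hQ, mul_div_assoc', le_div_iff₀ (by positivity)]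
    have hs : √(n : ℝ) * √(n : ℝ) = n := Real.mul_self_sqrt (by linarith)
    have hs0 : 0 ≤ √(n : ℝ) := Real.sqrt_nonneg _
    have h7 := mul_le_mul_of_nonneg_left h6 hs0
    calc (10 + 72 * 16 / ε) * √(n : ℝ) * (WW w * Vz w ^ 2 * Real.log n ^ 2) =
        √(n : ℝ) * ((10 + 72 * 16 / ε) * (WW w * Vz w ^ 2) * Real.log n ^ 2) := by ring
      _ ≤ √(n : ℝ) * (√(n : ℝ) * c0) := h7
      _ = c0 * n := by rw [← mul_assoc, hs]; ring
  have hmark := gw_markov (n := n) hw3 (fun r => h3 n hn3 r)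
  refine ⟨y, hy2, fun M A B X1 X2 hAB hBn hX12 hX2 hXκ had α hα => ?_⟩
  apply window_sumG (Q := Q) (CA := CA) (X1 := X1) (X2 := X2) hε hnW hAB hBn hwA hmark
  · intro ξ
    rw [hQ, hc0e]
    exact h4 n hn4 X1 X2 ξ hX12 hX2 hXκ
  · intro h hh hgw hgood
    rw [mem_Icc] at hh
    refine good_hG (Q := Q) (C := C) (y := y) (X1 := X1) (X2 := X2) hε hw3 hK2 hy1 hy2 (by omega) ?_ ?_ hwC hB ?_ hbig
      hX2 (fun β hβ hc => had α h β hα hβ hc) hgood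
    · intro P hP hPn
      exact h1 n hn1 y hy1 hy2 α h A B hh.1 hh.2 hAB hBn P hP hPn
    · intro ξ hξ
      rw [hQ] at hξ
      exact h2 n hn2 X1 X2 ξ h hX12 hX2 hh.1 hh.2 hgw hξ
    · apply hPr.2 w y h hw3
      by_contra hcon
      have : y = 0 := by omega
      rw [this, zero_add, one_pow] at hy2
      omega

end Pool.Agent.P8H49.GM
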