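import Pool.Agent.R521.GG.Stms

set_option autoImplicit false

/-!
# Project GM (helper49): mixed Goldbach graphs (MP_443e5f_co), exact statements of the packages

Vertices are halved: `2 a` is represented by `a`. Library files used (starting files, namespaces
`Pool.Agent.H373R2.T7` and `Pool.Agent.R521.GG`):

* `Pool/Agent/H373R2/T7/Fund.lean`: `sys_fund c ε` (fundamental lemma for all systems of at most `c` forbidden
  classes modulo the primes `p ≤ y`, `y ^ K ≤ x`, structure `PerB Q c`, numbers `nuB Q p`);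
* `Pool/Agent/H373R2/T7/FundC.lean`: `lam_fund c ε` (the same over the primes, `PerA Q c`, `rhoA Q p`);
* `Pool/Agent/H373R2/T7/BilLam.lean`: `bil_lam`; `Telesc.lean`: `l1_of_bil`; `LamZ.lean`: `pz`, `Vz`, `lamz`;
* `Pool/Agent/R521/GG/Mert.lean`: `t_mert : S_mert`; `Mom.lean`: `t_mom : S_mom`; `Codeg.lean`;
  `R521/GG/H1.lean`: `sum_dg_sq`, `SS_sum2`, `LL_large`, `few_edges`, `mom_pair`.
-/

namespace Pool.Agent.P8H49.GM

open Finset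
open Pool.Agent.H373R2.T7 (pz Vz)
open Pool.Agent.R521.GG (dg LL S_mert S_mom S_codeg)

/-- `m` is an odd prime -/
def OPr (m : ℕ) : Prop := m.Prime ∧ Odd m

/-- `m > 1` and all prime factors of `m` are larger than `n ^ (1 / K)` -/
def Rog (K n m : ℕ) : Prop := 1 < m ∧ ∀ p : ℕ, p.Prime → p ∣ m → n < p ^ K

/-- adjacency of `2 a` and `2 b` in the mixed graph: one of `a + b`, `|a - b|` is an odd prime, and the other one is an
odd prime or has only prime factors larger than `n ^ (1 / K)` -/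
def MA (K n a b : ℕ) : Prop := a ≠ b ∧ ((OPr (a + b) ∧ (OPr (Nat.dist a b) ∨ Rog K n (Nat.dist a b))) ∨
  (OPr (Nat.dist a b) ∧ Rog K n (a + b)))

/-- the same class: same parity and same divisibility by `3` -/
def SC (a c : ℕ) : Prop := (2 ∣ a ↔ 2 ∣ c) ∧ (3 ∣ a ↔ 3 ∣ c)

/-- the product of the primes up to `w` -/
def WW (w : ℕ) : ℕ := ∏ p ∈ pz w, p

/-- the product of `1 + 4 / p` over the prime factors `p > w` of `m` -/
noncomputable def gw (w m : ℕ) : ℝ := ∏ p ∈ m.primeFactors.filter (fun p => w < p), (1 + 4 / (p : ℝ))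

/-- the weight of the pair of differences `k`, `h` -/
noncomputable def GG (w k h : ℕ) : ℝ := gw w k * gw w (Nat.dist k h) * gw w (k + h)

/-- `∏ (1 - ν / p)` over the primes `w < p ≤ y`, where `ν = 1` if `p ∣ h` and `ν = 2` otherwise -/
noncomputable def Pi2 (w y h : ℕ) : ℝ :=
  ∏ p ∈ (pz y).filter (fun p => w < p), (1 - ((if p ∣ h then 1 else 2 : ℕ) : ℝ) / p)

/-- the number of the distinct residues of `0, h, k, k + h` modulo `p` -/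
def nu4 (k h p : ℕ) : ℕ := (({0, h, k, k + h} : Finset ℕ).image (fun t => t % p)).card

open Classical in
/-- the `x` in the window `(A, B]`, `x ≡ ξ (mod W)`, such that `x` and `x + h` are primes -/
noncomputable def PP (W ξ A B h : ℕ) : Finset ℕ :=
  (Ioc A B).filter (fun x => x ≡ ξ [MOD W] ∧ x.Prime ∧ (x + h).Prime)

/-- `2 a - x` and `2 a + h - x` have no prime factors `w < p ≤ y` -/
def Rgh (y w a h x : ℕ) : Prop :=
  ∀ p ∈ pz y, w < p → ¬ (p : ℤ) ∣ 2 * (a : ℤ) - x ∧ ¬ (p : ℤ) ∣ 2 * (a : ℤ) + h - x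

open Classical in
/-- the excess of the pair correlations of the set `P` -/
noncomputable def SG (w h : ℕ) (P : Finset ℕ) : ℝ :=
  ∑ x ∈ P, ∑ x' ∈ P.filter (fun x' => x' ≠ x ∧ Nat.dist x x' ≠ h), (GG w (Nat.dist x x') h - 1)

/-- **GM/PROD** (about 100 lines). Products over `w < p ≤ y`.

Proof. For each prime `p > w ≥ 3` (so `p ≥ 5`) put `ν = 1` if `p ∣ h` and `ν = 2` otherwise. Then
`1 - nu4 / p ≤ (1 - ν / p) ^ 2 (1 + 4 / p) ^ e` where `e = 1` if `p ∣ k` or `p ∣ |k - h|` or `p ∣ k + h`, and `e = 0` otherwise: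
* `p ∣ h`, `p ∤ k`: `nu4 = 2` and `1 - 2/p ≤ (1 - 1/p)^2`;
* `p ∣ h`, `p ∣ k`: `nu4 = 1` and `1 - 1/p ≤ (1 - 1/p)^2 (1 + 4/p)` as `(1 - 1/p)(1 + 4/p) ≥ 1` for `p ≥ 2`;
* `p ∤ h`, `p ∤ k`, `p ∤ k - h`, `p ∤ k + h`: `nu4 = 4` and `1 - 4/p ≤ (1 - 2/p)^2`;
* `p ∤ h`, `p ∣ k`: `nu4 ≥ 2` (`0`, `h`) and `1 - 2/p ≤ (1 - 2/p)^2 (1 + 4/p)` as `(1 - 2/p)(1 + 4/p) ≥ 1` for `p ≥ 4`;
* `p ∤ h`, `p ∤ k`, `p ∣ k - h` or `p ∣ k + h`: `nu4 ≥ 3` and `1 - 3/p ≤ (1 - 2/p)^2 (1 + 4/p)`.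
Multiply over `p`; the product of the `(1 + 4/p) ^ e` is at most `gw w k * gw w |k - h| * gw w (k + h)` because all
factors are `≥ 1` and every `p` with `e = 1` occurs in one of the three products (`k`, `|k - h|`, `k + h` are not zero).
The second part: the factors with `p ∣ h` are `1 - 1/p ≥ 1 - 2/p`, and
`∏_{w < p ≤ y} (1 - 2/p) ≥ ∏_{5 ≤ m ≤ y, m odd} (m - 2)/m ≥ 3 / y` (telescoping). -/
def S_PROD : Prop := (∀ w y k h : ℕ, 3 ≤ w → 1 ≤ h → 1 ≤ k → k ≠ h →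
    ∏ p ∈ (pz y).filter (fun p => w < p), (1 - (nu4 k h p : ℝ) / p) ≤ Pi2 w y h ^ 2 * GG w k h) ∧
  ∀ w y h : ℕ, 3 ≤ w → 1 ≤ y → 1 / (y : ℝ) ≤ Pi2 w y h

open Classical in
/-- **GM/MAJ** (about 150 lines). Upper bound for prime quadruples `x, x + h, x + k, x + k + h` in a class mod `W`.

Proof. Use `sys_fund 4 1`, with constants `K, x0`, and `K1 = max K 8`. Write `x = ξ' + W m` with `ξ' = ξ % W`, `m ≤ 2 n / W`.
If `x > y` then none of the four primes is at most `y`, so `m` avoids, for all `w < p ≤ y`, the classes of `m` for which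
`p` divides one of `ξ' + W m + t`, `t ∈ {0, h, k, k + h}`; since `p ∤ W` these are exactly `nu4 k h p` classes mod `p`
(`nuB Q p = nu4 k h p` for `w < p ≤ y`; take `Q p m := w < p ∧ (p divides one of the four)`, so that `nuB Q p = 0` for
`p ≤ w`). Hence the number is at most `y + 1 + 2 (2 n / W) ∏ (1 - nu4 / p) + √n` (`X = 2 n / W`), and `S_PROD` bounds the
product by `Pi2 ^ 2 GG`. The terms `y + 1 + √n ≤ 3 √n` are at most `(n / W) Pi2 ^ 2` for large `n`, because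
`Pi2 ≥ 1 / y` and `y ≤ n ^ (1 / 8)`, and `GG ≥ 1`. -/
def S_MAJ : Prop := ∃ (K1 : ℕ) (C : ℝ), 1 ≤ K1 ∧ 0 < C ∧ ∀ w : ℕ, 3 ≤ w → ∃ n0 : ℕ, ∀ n : ℕ, n0 ≤ n → ∀ y : ℕ,
  y ^ K1 ≤ n → n < (y + 1) ^ K1 → ∀ ξ h k : ℕ, 1 ≤ h → h ≤ n → 1 ≤ k → k ≤ 2 * n → k ≠ h → WW w ∣ k →
  (((Icc 1 (2 * n)).filter (fun x => x ≡ ξ [MOD WW w] ∧ x.Prime ∧ (x + h).Prime ∧ (x + k).Prime ∧
    (x + k + h).Prime)).card : ℝ) ≤ C * (n / WW w) * Pi2 w y h ^ 2 * GG w k h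

/-- **GM/AVG** (about 150 lines). The mean value of `gw ^ 6` in classes mod `W` is `1 + O(1 / w)`.

Proof. For `m ≥ 1`, `gw w m ^ 6 = ∏_{p ∣ m, p > w} (1 + F p) = ∑_{d ∣ m, d squarefree, all p ∣ d are > w} F d`, where
`F p = (1 + 4 / p) ^ 6 - 1 ≤ 480 / p` for `p ≥ 3` and `F d` is the product of the `F p` (`Finset.prod_one_add`: sum over the
subsets of `m.primeFactors.filter (w < ·)`). Such a `d` is coprime to `W`, so the number of the `m ≤ n` in the class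
`r` mod `W` with `d ∣ m` is at most `n / (W d) + 1`. The term `d = 1` gives the `1` which is subtracted. The sum of
`F d / d` over `d > 1` is at most `∏_{w < p ≤ n} (1 + 480 / p ^ 2) - 1 ≤ exp (480 / w) - 1 ≤ C / w`, and the sum of the
`F d`, `d ≤ n`, is at most `C √n`, since `F d ≤ ∏_{p ∣ d} 480 / p ≤ C / √d` (primes `p ≥ 480 ^ 2` contribute factors
`480 / p ≤ 1 / √p`), which is `≤ n / (W w)` for large `n`. -/
def S_AVG : Prop := ∃ C : ℝ, 0 < C ∧ ∀ w : ℕ, 3 ≤ w → ∃ n0 : ℕ, ∀ n : ℕ, n0 ≤ n → ∀ r : ℕ,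
  ∑ m ∈ (Icc 1 n).filter (fun m => m ≡ r [MOD WW w]), (gw w m ^ 6 - 1) ≤ C * (n / WW w) / w

/-- **GM/MERT** (about 80 lines). Mertens comparison.

Proof. For `w < p`: `1 - 2/p ≤ (1 - 1/p)^2` and, if `p ∣ h`, `1 - 1/p ≤ (1 - 1/p)^2 (1 + 4/p)`. Hence
`Pi2 w y h ≤ (∏_{w < p ≤ y} (1 - 1/p)) ^ 2 * gw w h = (Vz y / Vz w) ^ 2 * gw w h` (for `w ≤ y`, which holds for large `n`).
Finally `Vz y ≤ C / log y` (`S_mert`) and `log y ≥ log n / (2 K1)` since `n < (y + 1) ^ K1`. -/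
def S_MERT : Prop := ∀ K1 : ℕ, 1 ≤ K1 → ∃ C : ℝ, 0 < C ∧ ∀ w : ℕ, 3 ≤ w → ∃ n0 : ℕ, ∀ n : ℕ, n0 ≤ n → ∀ y : ℕ,
  n < (y + 1) ^ K1 → ∀ h : ℕ, 1 ≤ h → Pi2 w y h ≤ C / (Vz w ^ 2 * Real.log n ^ 2) * gw w h

/-- **GM/PP** (about 250 lines). Prime pairs `x, x + h` in a class mod `W` and a window, for almost all `h`.

Proof. Let `W = WW w`, `z = ⌈(log n) ^ B0⌉` with `B0` from `bil_lam` for `f = X` (`N = n`, `x = n`, `A = 2 n`, `B = 3`, `U = 6`,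
`E = B0 + 1`, `σ = 1`; the variable `a` of `bil_lam` is our `x ≤ 2 n` and its variable `m` is `h ≤ n`). With
`l1_of_bil` for `G x = Λ x` if `A < x ≤ B` and `x ≡ ξ (mod W)` and `G x = 0` otherwise (bounded by `log (2 n)`):
`∑_{h ≤ n} |∑_x G x (Λ (x + h) - lamz z (x + h))| ≤ log (2 n) n ^ 2 / (log n) ^ 6`. So for all but at most `ε n` of the `h`
the inner sum is at most `n / log n` in absolute value. Now let `p ∤ ξ`, `p ∤ ξ + h` for all `p ≤ w`. Then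
`∑_x G x lamz z (x + h)` is `(Vz z)⁻¹` times the sum of `Λ x` over the `A < x ≤ B` which satisfy `x % p = ξ % p` for `p ≤ w`
and `¬ p ∣ x + h` for `w < p ≤ z`. Use `lam_fund (w + 1) (1 / 50)` at `X = A` and `X = B`, with `x = 2 n`, `y = z`, `U` large and
`Q p r := (p ≤ w ∧ r % p ≠ ξ % p) ∨ (w < p ∧ p ∣ r + h)`: `rhoA = p - 2` for `p ≤ w`, and `rhoA ≤ 1` for `w < p ≤ z`, `rhoA = 0` if
`p ∣ h`. So the product of the `1 - rhoA / (p - 1)` is at least `∏_{p ≤ w} 1 / (p - 1) * ∏_{w < p ≤ z} (1 - 1 / (p - 1))`, where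
`∏_{p ≤ w} (p - 1) = W * Vz w`, and after division by `Vz z = Vz w * ∏_{w < p ≤ z} (1 - 1/p)` it is at least
`1 / (W (Vz w)^2) * ∏_{w < p ≤ z} (1 - 1 / (p - 1)^2) ≥ 1 / (2 W (Vz w)^2)` (`∏_{j ≥ 2} (1 - 1 / j^2) = 1/2`). The length of the
window is at least `n / 3` and `A + B ≤ 4 n`, so the errors `(1 / 50) (A + B) main` are at most `(12 / 50) (B - A) main`.
Hence `∑_x G x Λ (x + h) ≥ n / (20 W (Vz w)^2)` for large `n`. Each term is at most `(log (3 n))^2 ≤ 2 (log n)^2` and the `x`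
for which `x` or `x + h` is a proper prime power contribute at most `8 √(3 n) (log (3 n))^3`. -/
def S_PP : Prop := ∃ c0 : ℝ, 0 < c0 ∧ ∀ w : ℕ, 3 ≤ w → ∀ ε : ℝ, 0 < ε → ∃ n0 : ℕ, ∀ n : ℕ, n0 ≤ n →
  ∀ A B ξ : ℕ, A ≤ B → B ≤ 2 * n → n ≤ 3 * (B - A) →
  (((Icc 1 n).filter (fun h => (∀ p ∈ pz w, ¬ p ∣ ξ ∧ ¬ p ∣ ξ + h) ∧
    ((PP (WW w) ξ A B h).card : ℝ) < c0 * (n / (WW w * Vz w ^ 2 * Real.log n ^ 2)))).card : ℝ) ≤ ε * n

open Classical in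
/-- **GM/VAR** (about 250 lines). Second moment over `a`, for fixed `h` and an arbitrary set `P`.

Proof. Let `W = WW w`, `Π = Pi2 w y h`, and let `ε' = ε / 100`. Use `sys_fund 4 ε'` (constants `K, x0`), `K0 = max K 8`. The
`a ≡ α (mod W)` in `(A, B]` are `a = α' + W m` (`α' = α % W`) with `m` in an interval `(M1, M2]` (natural numbers after a shift),
`M1 + M2 ≤ 2 n / W + 2`, `M2 - M1 ≤ n / W + 1`. Let `N a` be the number of the `x ∈ P` with `Rgh y w a h x`.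
For `x ∈ P` the number of the `m` with `Rgh` is, by `sys_fund` at `X = M1, M2` with
`Q p m := w < p ∧ (p ∣ 2 (α' + W m) - x ∨ p ∣ 2 (α' + W m) + h - x)` and `nuB = 1` if `p ∣ h`, `2` otherwise (`p ∤ 2 W`), equal to
`(M2 - M1) Π` up to `ε' (M1 + M2) Π + 2 √n`. For `x ≠ x'` in `P`, `k = |x - x'| ≠ h`, the number of the `m` with `Rgh` for both
is at most `(M2 - M1 + ε' (M1 + M2)) ∏ (1 - nu4 k h p / p) + 2 √n`, and `S_PROD` bounds the product by `Π ^ 2 GG w k h`. The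
at most `3 |P|` pairs with `x = x'` or `|x - x'| = h` are bounded by the first estimate. Hence
`∑_a (N a - |P| Π)^2 ≤ (n / W) (6 Π^2 SG + 9 ε' |P|^2 Π^2 + 18 |P| Π) + 12 √n |P|^2`, and the last term is at most
`(n / W) ε' |P|^2 Π^2` for large `n` (`Π ≥ 1 / y ≥ n ^ (-1/8)`). The `a` with `N a ≤ |P| Π / 2` are at most
`4 / (|P| Π)^2` times this in number. -/
def S_VAR : Prop := ∀ ε : ℝ, 0 < ε → ∃ K0 : ℕ, ∀ K : ℕ, K0 ≤ K → ∀ w : ℕ, 3 ≤ w → ∃ n0 : ℕ, ∀ n : ℕ, n0 ≤ n →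
  ∀ y : ℕ, y ^ K ≤ n → n < (y + 1) ^ K → ∀ α h A B : ℕ, 1 ≤ h → h ≤ n → A ≤ B → B ≤ n →
  ∀ P : Finset ℕ, P ⊆ Icc 1 (2 * n) → P.Nonempty →
  (((Ioc A B).filter (fun a => a ≡ α [MOD WW w] ∧
    ((P.filter (fun x => Rgh y w a h x)).card : ℝ) ≤ P.card * Pi2 w y h / 2)).card : ℝ) ≤
  n / WW w * (ε + 24 * SG w h P / (P.card : ℝ) ^ 2 + 72 / (P.card * Pi2 w y h))

/-- **GM/SUM** (about 150 lines). The pair correlations of the sets `PP`, from MAJ, AVG and MERT.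

Proof. `|x - x'| = k` is a multiple of `W`, `1 ≤ k ≤ 2 n`, and for each `k` the number of the pairs `x < x'` in `P` with
`x' - x = k` is at most the number in `S_MAJ`. So (with `y` such that `y ^ K1 ≤ n < (y + 1) ^ K1`)
`SG ≤ 2 C1 (n / W) Pi2 ^ 2 ∑_{k ≤ 2 n, W ∣ k, k ≠ h} GG (GG - 1) ≤ 2 C1 (n / W) Pi2 ^ 2 ∑_k (GG ^ 2 - 1)` (`GG ≥ 1`), and
`GG ^ 2 ≤ (gw k ^ 6 + gw |k - h| ^ 6 + gw (k + h) ^ 6) / 3`; `k`, `k - h` or `h - k`, and `k + h` run through classes mod `W` up to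
`3 n`, so `S_AVG` gives `∑_k (GG ^ 2 - 1) ≤ 12 C (n / W) / w`. By `S_MERT` and `gw w h ≤ 2`,
`Pi2 ≤ 2 C2 / ((Vz w)^2 (log n)^2) ≤ (2 C2 / c0) (W / n) |P|`. -/
def S_SUM : Prop := ∀ c0 : ℝ, 0 < c0 → ∃ C : ℝ, 0 < C ∧ ∀ w : ℕ, 3 ≤ w → ∃ n0 : ℕ, ∀ n : ℕ, n0 ≤ n →
  ∀ A B ξ h : ℕ, A ≤ B → B ≤ 2 * n → 1 ≤ h → h ≤ n → gw w h ≤ 2 →
  c0 * (n / (WW w * Vz w ^ 2 * Real.log n ^ 2)) ≤ ((PP (WW w) ξ A B h).card : ℝ) →
  SG w h (PP (WW w) ξ A B h) ≤ C / w * ((PP (WW w) ξ A B h).card : ℝ) ^ 2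

/-- **GM/BETA** (about 80 lines). A class `β` mod `W` with `a ± β`, `c ± β` coprime to `W`.

Proof. For each prime `p ≤ w` choose `β_p`: `p = 2`: `β_2 = a + 1`; `p = 3`: `β_3 = 1` if `3 ∣ a`, else `0`; `p ≥ 5`: the residues
`± a`, `± c` are at most four. Chinese remainder theorem (`Nat.chineseRemainderOfFinset` or `ZMod`). -/
def S_BETA : Prop := ∀ w a c : ℕ, SC a c → ∃ β : ℕ, β < WW w ∧ ∀ p ∈ pz w,
  ¬ (p : ℤ) ∣ (a : ℤ) + β ∧ ¬ (p : ℤ) ∣ (a : ℤ) - β ∧ ¬ (p : ℤ) ∣ (c : ℤ) + β ∧ ¬ (p : ℤ) ∣ (c : ℤ) - β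

open Classical in
/-- **GM/ALLV** (about 150 lines). Every vertex has many neighbours in the mixed graph.

Proof. `b = x - a` for primes `x ∈ (a, a + n]`: `a + b = x`, `|a - b| = |2 a - x|`. Use `lam_fund 1 (1 / 12)` (constant `K`,
`K0 = 2 K`; `x = 2 n`, `y` with `y ^ K0 ≤ n < (y + 1) ^ K0`, `U = 3`) at `X = a` and `X = a + n` with
`Q p r := r % p = (2 a) % p`: `rhoA = 0` if `p ∣ 2 a` and `1` otherwise, so the product is at least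
`∏_{3 ≤ p ≤ y} (1 - 1 / (p - 1)) ≥ ∏_{3 ≤ p ≤ y} (1 - 1 / p) (1 - 1 / (p - 1) ^ 2) ≥ Vz y ≥ c / log y ≥ c / log n` (the lower
bound for `Vz y` follows from the third theorem of Mertens, `Pool/Agent/H305R2/MertensE.lean`, last theorem). Hence
the sum of `Λ x` over the `x ∈ (a, a + n]` with `2 a - x` free of prime factors `≤ y` is at least `c' n / log n`, the terms are
at most `log (2 n)`; remove the proper prime powers, `x = 2` and the `x` with `|2 a - x| ≤ 1`. For `K ≥ K0` the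
relation `MA K n` contains `MA K0 n`. -/
def S_ALLV : Prop := ∃ K0 : ℕ, ∃ δ : ℝ, 0 < δ ∧ ∃ n0 : ℕ, ∀ n : ℕ, n0 ≤ n → ∀ K : ℕ, K0 ≤ K → ∀ a ∈ Icc 1 n,
  δ * LL n ≤ (((Icc 1 n).filter (fun b => MA K n a b)).card : ℝ)

/-- **GM/L5** (about 60 lines). Few edges at few vertices.

Proof. `(∑_{b ∈ E} dg b)^2 ≤ |E| ∑_{b ≤ n} (dg b)^2` and `∑_b (dg b)^2 = ∑_{a, c} cd a c` (`sum_dg_sq`); the diagonal is
`∑_a dg a ≤ n ^ 2 ≤ n LL ^ 2` for large `n` (`cd_self`, `LL_large`), and for `a ≠ c` `S_codeg` and `SS_sum2` (`j = 1`) give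
`≤ C (n / (log n)^4) n ^ 2 = C n LL ^ 2`. -/
def S_L5 : Prop := ∃ C : ℝ, 0 < C ∧ ∃ n0 : ℕ, ∀ n : ℕ, n0 ≤ n → ∀ E ⊆ Icc 1 n,
  ∑ b ∈ E, (dg (Icc 1 n) b : ℝ) ≤ C * √((E.card : ℝ) * n) * LL n

open Classical in
/-- **GM/LINK** (helper49). Almost all pairs of vertices of the same class have a common neighbour. -/
def S_LINK : Prop := ∀ ε : ℝ, 0 < ε → ∃ K0 : ℕ, ∀ K : ℕ, K0 ≤ K → ∃ n0 : ℕ, ∀ n : ℕ, n0 ≤ n →
  (((Icc 1 n ×ˢ Icc 1 n).filter (fun q : ℕ × ℕ => q.1 < q.2 ∧ SC q.1 q.2 ∧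
    ¬ ∃ b ∈ Icc 1 n, MA K n q.1 b ∧ MA K n q.2 b)).card : ℝ) ≤ ε * (n : ℝ) ^ 2

/-- **GM/ASM** (helper49). The mixed graph on `1, …, n` is connected with bounded diameter. -/
def S_ASM : Prop := ∃ K C N : ℕ, ∀ n : ℕ, N ≤ n → ∀ u ∈ Icc 1 n, ∀ v ∈ Icc 1 n,
  ∃ (m : ℕ) (f : ℕ → ℕ), m ≤ C ∧ f 0 = u ∧ f m = v ∧ (∀ i ≤ m, f i ∈ Icc 1 n) ∧ ∀ i < m, MA K n (f i) (f (i + 1))

end Pool.Agent.P8H49.GM
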